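import Pool.Agent.H74.OP.Bt1

/-!
# Row OPBfin (project OP, block B): the monomials modulo `2^m`

`C0 = 16 c (κ+1)`.  For `i ≤ n`, `j + κ l ≤ H` (so `l ≤ H` if `κ ≥ 1`): `t^i z^j T1^l` is `App A C0 b h` with `h = j + κ l ≤ H` and
`b = ((c+c) i + c) + ((c+c) j + c) + ((C0 + c + c) l + c) + 2c ≤ (C0 + 10 c)(n + H + 1) =: b0` (`App.pow`, `App.mul`, `App.mono` with `h ≤ H`).
Monomial: `s = t W`, `D W = z W³`, `F1 f = T1 W^κ`, and `W^(n+3H-i-3j-κl)` (all subtractions exact: `i ≤ n`, `3j + κ l ≤ 3H`): `Mon = W^(n+3H) t^i z^j T1^l`.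
Take `M = m` (`2 M ≥ m`): `t^i z^j T1^l ≡ Y = ∑_(a<m) 4^a v_a mod 2^(2m)`, so mod `2^m` (`Cg.mono`); `Y` is 2-integral and in `ZA A (C0 m + b0) H` (`ZA_sum`, `ZA_mono`, `ZA_C_mul`).  `v = W^(n+3H) Y`.
Spanning set: `N = C0 m + b0`, `b : Fin (R (N+1)) → ℚ⟦X⟧` from `hA.fin N`, `S = {W^(n+3H) * b_e * z^a : e, a ≤ H}` (image of `univ ×ˢ Finset.range (H+1)`), `card ≤ R (N+1)(H+1) ≤ C (H+1)(n+m+H+1)` with
`C = R (2 C0 + 10 c + 1)`.  An element of `ZA A N H` is `∑_(a ≤ H) P_a z^a`, `P_a ∈ A N ≤ span (range b)`, so `W^(n+3H)` times it is in `span S` (`Submodule.span_induction` or `Submodule.map_span`).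
-/

open PowerSeries
open Pool.Agent.H85.OT
open Pool.Agent.H85.OU
open Pool.Agent.H46.OP

namespace Pool.Agent.H74.OP

private theorem OPBfin_card (C0 c n H m : ℕ) : C0 * m + (C0 + 10 * c) * (n + H + 1) + 1 ≤
    (2 * C0 + 10 * c + 1) * (n + m + H + 1) := by
  have h1 : (2 * C0 + 10 * c + 1) * (n + m + H + 1) =
      C0 * m + (C0 + 10 * c) * (n + H + 1) + 1 +
        (C0 * (n + H + 1) + (C0 + 10 * c) * m + n + m + H) := by ring
  rw [h1]
  exact Nat.le_add_right _ _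

private theorem OPBfin_bd (C0 c n H i j l : ℕ) (hi : i ≤ n) (hj : j ≤ H) (hl : l ≤ H) :
    (c + c) * i + c + ((c + c) * j + c) + c + ((C0 + c + c) * l + c) + c ≤
      (C0 + 10 * c) * (n + H + 1) := by
  have h1 : (c + c) * i ≤ (c + c) * n := Nat.mul_le_mul_left _ hi
  have h2 : (c + c) * j ≤ (c + c) * H := Nat.mul_le_mul_left _ hj
  have h3 : (C0 + c + c) * l ≤ (C0 + c + c) * H := Nat.mul_le_mul_left _ hl
  have h4 : (C0 + 10 * c) * (n + H + 1) =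
      (c + c) * n + c + ((c + c) * H + c) + c + ((C0 + c + c) * H + c) + c +
        (C0 * n + C0 + 8 * (c * n) + 6 * (c * H) + 5 * c) := by ring
  omega

theorem two_adic (f : ℤ⟦X⟧) (κ : ℕ) (hκ : 1 ≤ κ) (hodd : ∀ n, 2 ∣ n → PowerSeries.coeff n f = 0)
    {R c : ℕ} {A : ℕ → Submodule ℚ ℚ⟦X⟧} (hA : Lev (phiW f (κ + 2)) R c A) :
    ∃ C : ℕ, ∀ n H m : ℕ, ∃ S : Finset ℚ⟦X⟧, S.card ≤ C * (H + 1) * (n + m + H + 1) ∧
      ∀ i ≤ n, ∀ j l : ℕ, j + κ * l ≤ H →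
        ∃ v ∈ Submodule.span ℚ (S : Set ℚ⟦X⟧), Int2 v ∧ ∃ w, Int2 w ∧
          Wq ^ (n + 3 * H - i - 3 * j - κ * l) * sq ^ i * (Dq ℚ Wq) ^ j * (F1 f) ^ l =
            v + PowerSeries.C ((2 : ℚ) ^ m) * w := by
  classical
  obtain ⟨C0, hC0⟩ : ∃ C0, C0 = 16 * c * (κ + 1) := ⟨_, rfl⟩
  refine ⟨R * (2 * C0 + 10 * c + 1), fun n H m => ?_⟩
  obtain ⟨N, hN⟩ : ∃ N, N = C0 * m + (C0 + 10 * c) * (n + H + 1) := ⟨_, rfl⟩
  obtain ⟨b, hb⟩ := hA.fin N
  refine ⟨(Finset.univ ×ˢ Finset.range (H + 1) : Finset (Fin (R * (N + 1)) × ℕ)).image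
    (fun p => Wq ^ (n + 3 * H) * (b p.1 * zW ^ p.2)), ?_, ?_⟩
  · refine Finset.card_image_le.trans ?_
    rw [Finset.card_product, Finset.card_univ, Fintype.card_fin, Finset.card_range]
    have h1 : N + 1 ≤ (2 * C0 + 10 * c + 1) * (n + m + H + 1) := by
      rw [hN]
      exact OPBfin_card C0 c n H m
    calc R * (N + 1) * (H + 1) ≤
        R * ((2 * C0 + 10 * c + 1) * (n + m + H + 1)) * (H + 1) :=
          Nat.mul_le_mul_right _ (Nat.mul_le_mul_left _ h1)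
      _ = R * (2 * C0 + 10 * c + 1) * (H + 1) * (n + m + H + 1) := by ring
  · intro i hi j l hjl
    have hl : l ≤ H := by
      have h1 : l ≤ κ * l := Nat.le_mul_of_pos_left l hκ
      omega
    have hj : j ≤ H := by omega
    have a1 : App A C0 (C0 + c) κ (T1 f κ) := by
      rw [hC0]; exact App_T1 f κ hodd hA
    have a2 := (((App_t hA C0).pow hA i).mul hA ((App_z hA C0).pow hA j)).mul hA (a1.pow hA l)
    have a3 : App A C0 ((C0 + 10 * c) * (n + H + 1)) H (tq ^ i * zW ^ j * T1 f κ ^ l) :=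
      App.mono hA (OPBfin_bd C0 c n H i j l hi hj hl) (by omega) a2
    have hint : Int2 (tq ^ i * zW ^ j * T1 f κ ^ l) := a3.int
    obtain ⟨v, hv, hcg⟩ := a3
    have hc1 := hcg m
    generalize hY : (∑ a ∈ Finset.range m, PowerSeries.C ((4 : ℚ) ^ a) * v a) = Y at hc1
    have hYi : Int2 Y := hc1.symm.int hint
    have hYZ : ZA A N H Y := by
      rw [← hY]
      refine ZA_sum _ _ (fun a ha => ZA_C_mul _ (ZA_mono hA ?_ le_rfl (hv a).2))
      rw [hN]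
      have h1 : C0 * a ≤ C0 * m := Nat.mul_le_mul_left _ (Finset.mem_range.mp ha).le
      omega
    obtain ⟨w, hw, hw2⟩ : Cg m (tq ^ i * zW ^ j * T1 f κ ^ l) Y := hc1.mono (by omega)
    refine ⟨Wq ^ (n + 3 * H) * Y, ?_, int2_mul (int2_pow int2_Wq _) hYi,
      Wq ^ (n + 3 * H) * w, int2_mul (int2_pow int2_Wq _) hw, ?_⟩
    · obtain ⟨P, hP1, hP2, rfl⟩ := hYZ
      rw [Polynomial.eval_eq_sum_range' (Nat.lt_succ_of_le hP1), Finset.mul_sum]
      refine Submodule.sum_mem _ (fun a ha => ?_)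
      have hle : Submodule.span ℚ (Set.range b) ≤
          (Submodule.span ℚ (((Finset.univ ×ˢ Finset.range (H + 1) :
            Finset (Fin (R * (N + 1)) × ℕ)).image
            (fun p => Wq ^ (n + 3 * H) * (b p.1 * zW ^ p.2)) : Finset ℚ⟦X⟧) : Set ℚ⟦X⟧)).comap
            ((LinearMap.mulLeft ℚ (Wq ^ (n + 3 * H))).comp (LinearMap.mulRight ℚ (zW ^ a))) := by
        rw [Submodule.span_le]
        rintro _ ⟨e, rfl⟩
        refine Submodule.subset_span (Finset.mem_coe.mpr (Finset.mem_image.mpr ⟨(e, a), ?_, ?_⟩))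
        · exact Finset.mem_product.mpr ⟨Finset.mem_univ _, ha⟩
        · rfl
      exact hle (hb (hP2 a))
    · have hexp : n + 3 * H = (n + 3 * H - i - 3 * j - κ * l) + i + 3 * j + κ * l := by omega
      have hmon : Wq ^ (n + 3 * H - i - 3 * j - κ * l) * sq ^ i * (Dq ℚ Wq) ^ j * (F1 f) ^ l =
          Wq ^ (n + 3 * H) * (tq ^ i * zW ^ j * T1 f κ ^ l) := by
        generalize n + 3 * H - i - 3 * j - κ * l = e at hexp
        have h1 : (Wq * Wq⁻¹) ^ (i + 3 * j + κ * l) = 1 := by rw [Wq_mul_inv, one_pow]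
        rw [hexp]
        unfold tq zW T1
        calc Wq ^ e * sq ^ i * (Dq ℚ Wq) ^ j * (F1 f) ^ l
            = Wq ^ e * sq ^ i * (Dq ℚ Wq) ^ j * (F1 f) ^ l *
              (Wq * Wq⁻¹) ^ (i + 3 * j + κ * l) := by rw [h1, mul_one]
          _ = Wq ^ (e + i + 3 * j + κ * l) * ((sq * Wq⁻¹) ^ i * (Dq ℚ Wq * Wq⁻¹ ^ 3) ^ j *
              (F1 f * Wq⁻¹ ^ κ) ^ l) := by
            simp only [mul_pow, pow_add, pow_mul]
            ring
      rw [hmon]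
      have h2 : tq ^ i * zW ^ j * T1 f κ ^ l = Y + PowerSeries.C ((2 : ℚ) ^ m) * w := by
        rw [← hw2]; ring
      rw [h2]
      ring

end Pool.Agent.H74.OP
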