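import Pool.Agent.H46.OP.Defs

/-!
# Block B of the project OP (2-adic section): definitions

`Odn y`, `Evn y` (from `H46/OP/Defs`): the coefficients of even (odd) index vanish.  `Cg m a b`: `a - b = 2^m w` with `w` 2-integral.
`Lop κ y = W^(-κ-2) D^(κ+1) (W^(-κ) y)` (Bol operator), `Lam κ y = δ^(κ+1) y`,
`Eop κ a = (Lop κ (Lam κ a) - a)/4`, `ui κ φ i = (-1)^i Lam κ (E^i φ)`.
`QA A n y`: `y ∈ A n`, 2-integral, odd.  `ZA A N h y`: `y = P(z)`, `deg P ≤ h`, coefficients of `P` in `A N`.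
`App A C b h y`: `y = ∑_(i' < i) 4^i' v_i' mod 4^i` for all `i`, with 2-integral `v_i'` in `ZA A (C i' + b) h`.
`FK f κ = ∑ a_n n^(-κ-1) q^n`, `y0 = W^κ FK`.
-/

open PowerSeries
open Pool.Agent.H85.OT
open Pool.Agent.H85.OU
open Pool.Agent.H46.OP

namespace Pool.Agent.H74.OP

/-- congruence modulo `2^m` -/
def Cg (m : ℕ) (a b : ℚ⟦X⟧) : Prop := ∃ w, Int2 w ∧ a - b = PowerSeries.C ((2 : ℚ) ^ m) * w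

/-- Bol operator -/
noncomputable def Lop (κ : ℕ) (y : ℚ⟦X⟧) : ℚ⟦X⟧ :=
  Wq⁻¹ ^ (κ + 2) * (Dq ℚ)^[κ + 1] (Wq⁻¹ ^ κ * y)

/-- `δ^(κ+1)` -/
noncomputable def Lam (κ : ℕ) (y : ℚ⟦X⟧) : ℚ⟦X⟧ := (delW.toFun)^[κ + 1] y

/-- `(L Λ a - a)/4` -/
noncomputable def Eop (κ : ℕ) (a : ℚ⟦X⟧) : ℚ⟦X⟧ :=
  PowerSeries.C (1/4 : ℚ) * (Lop κ (Lam κ a) - a)

/-- `(-1)^i Λ E^i φ` -/
noncomputable def ui (κ : ℕ) (φ : ℚ⟦X⟧) (i : ℕ) : ℚ⟦X⟧ :=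
  PowerSeries.C ((-1 : ℚ) ^ i) * Lam κ ((Eop κ)^[i] φ)

/-- in `A n`, 2-integral, odd -/
def QA (A : ℕ → Submodule ℚ ℚ⟦X⟧) (n : ℕ) (y : ℚ⟦X⟧) : Prop := y ∈ A n ∧ Int2 y ∧ Odn y

/-- polynomials in `z` of degree `≤ h` with coefficients in `A N` -/
def ZA (A : ℕ → Submodule ℚ ℚ⟦X⟧) (N h : ℕ) (y : ℚ⟦X⟧) : Prop :=
  ∃ P : Polynomial ℚ⟦X⟧, P.natDegree ≤ h ∧ (∀ i, P.coeff i ∈ A N) ∧ y = P.eval zW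

/-- 2-adically convergent expansions with linear degree growth -/
def App (A : ℕ → Submodule ℚ ℚ⟦X⟧) (C b h : ℕ) (y : ℚ⟦X⟧) : Prop :=
  ∃ v : ℕ → ℚ⟦X⟧, (∀ i, Int2 (v i) ∧ ZA A (C * i + b) h (v i)) ∧
    ∀ i, Cg (2 * i) y (∑ j ∈ Finset.range i, PowerSeries.C ((4 : ℚ) ^ j) * v j)

/-- `∑ a_n n^(-κ-1) q^n` -/
noncomputable def FK (f : ℤ⟦X⟧) (κ : ℕ) : ℚ⟦X⟧ :=
  PowerSeries.mk fun n => ((PowerSeries.coeff n f : ℤ) : ℚ) / (n : ℚ) ^ (κ + 1)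

/-- `W^κ FK` -/
noncomputable def y0 (f : ℤ⟦X⟧) (κ : ℕ) : ℚ⟦X⟧ := Wq ^ κ * FK f κ

end Pool.Agent.H74.OP
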