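import Pool.Agent.H74.OP.Bcf

/-!
# Row OPBap (project OP, block B): calculus of `App`

* `ZA_add`, `ZA_mul`: polynomials `P, P'`: coefficients of `P P'` are sums of products `P_i P'_j ∈ A (N + N' + c)`, degrees add.  `ZA_mono`.
* `App.mul`: `y ≡ ∑ 4^j v_j`, `y' ≡ ∑ 4^j v'_j`; `v''_s = ∑_(i+j=s) v_i v'_j` (`Finset.HasAntidiagonal.antidiagonal s`) is 2-integral and in `ZA (C s + b + b' + c) (h + h')`.  With
  `Y = ∑_(j<i) 4^j v_j`, `Y' = ..`: `y y' ≡ Y Y' mod 4^i` (`Cg.mul`, `y` and `Y'` 2-integral: `y` is `Cg.int` with `i = 0`: take `i = 0` in the definition: `y - 0 = 2^0 w`), and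
  `Y Y' = ∑_(a, b < i) 4^(a+b) v_a v'_b = ∑_(s < i) 4^s v''_s + ∑_(a, b < i, a + b ≥ i) 4^(a+b) v_a v'_b`, the last sum is `4^i` times a 2-integral series.
* `App.const`: `v_0 = y`, `v_i = 0` for `i ≥ 1`; for `i = 0`: `y - 0 = 2^0 y`.
* `App.pow`: induction; exponent `0`: `1 ∈ A c` (`one`).
* `App_z`: `zW = X.eval zW`, `h = 1`, coefficients `1, 0 ∈ A c`.  `App_t`: `tq = (C tq).eval zW`, `h = 0`.
-/

open PowerSeries
open Pool.Agent.H85.OT
open Pool.Agent.H85.OU
open Pool.Agent.H46.OP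

namespace Pool.Agent.H74.OP

variable {φ : ℚ⟦X⟧} {R c : ℕ} {A : ℕ → Submodule ℚ ℚ⟦X⟧}

theorem ZA_mono (hA : Lev φ R c A) {N N' h h' : ℕ} (hN : N ≤ N') (hh : h ≤ h') {y : ℚ⟦X⟧}
    (hy : ZA A N h y) : ZA A N' h' y := by
  obtain ⟨P, h1, h2, h3⟩ := hy
  exact ⟨P, h1.trans hh, fun i => hA.mono hN (h2 i), h3⟩

theorem ZA_add {N h : ℕ} {y y' : ℚ⟦X⟧} (hy : ZA A N h y) (hy' : ZA A N h y') : ZA A N h (y + y') := by
  obtain ⟨P, h1, h2, h3⟩ := hy
  obtain ⟨P', h1', h2', h3'⟩ := hy'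
  refine ⟨P + P', (Polynomial.natDegree_add_le P P').trans (max_le h1 h1'), fun i => ?_, ?_⟩
  · rw [Polynomial.coeff_add]
    exact Submodule.add_mem _ (h2 i) (h2' i)
  · rw [Polynomial.eval_add, ← h3, ← h3']

theorem ZA_zero (N h : ℕ) : ZA A N h 0 := by
  refine ⟨0, by simp, fun i => ?_, by simp⟩
  rw [Polynomial.coeff_zero]
  exact Submodule.zero_mem _

theorem ZA_C_mul {N h : ℕ} (q : ℚ) {y : ℚ⟦X⟧} (hy : ZA A N h y) : ZA A N h (PowerSeries.C q * y) := by
  obtain ⟨P, h1, h2, h3⟩ := hy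
  refine ⟨Polynomial.C (PowerSeries.C q) * P, (Polynomial.natDegree_C_mul_le _ _).trans h1,
    fun i => ?_, ?_⟩
  · rw [Polynomial.coeff_C_mul, ← PowerSeries.smul_eq_C_mul]
    exact Submodule.smul_mem _ _ (h2 i)
  · rw [Polynomial.eval_mul, Polynomial.eval_C, ← h3]

theorem ZA_sum {ι : Type*} (s : Finset ι) (g : ι → ℚ⟦X⟧) {N h : ℕ} (H : ∀ i ∈ s, ZA A N h (g i)) :
    ZA A N h (∑ i ∈ s, g i) := by
  classical
  induction s using Finset.induction_on with
  | empty =>
    rw [Finset.sum_empty]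
    exact ZA_zero N h
  | insert a s ha ih =>
    rw [Finset.sum_insert ha]
    exact ZA_add (H a (Finset.mem_insert_self a s))
      (ih fun i hi => H i (Finset.mem_insert_of_mem hi))

theorem ZA_mul (hA : Lev φ R c A) {N N' h h' : ℕ} {y y' : ℚ⟦X⟧} (hy : ZA A N h y)
    (hy' : ZA A N' h' y') : ZA A (N + N' + c) (h + h') (y * y') := by
  obtain ⟨P, h1, h2, h3⟩ := hy
  obtain ⟨P', h1', h2', h3'⟩ := hy'
  refine ⟨P * P', Polynomial.natDegree_mul_le.trans (Nat.add_le_add h1 h1'), fun i => ?_, ?_⟩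
  · rw [Polynomial.coeff_mul]
    exact Submodule.sum_mem _ fun p _ => hA.mul (h2 p.1) (h2' p.2)
  · rw [Polynomial.eval_mul, ← h3, ← h3']

/-- the constant polynomial -/
private theorem OPBap_ZA_of_mem {N : ℕ} {y : ℚ⟦X⟧} (hy : y ∈ A N) : ZA A N 0 y := by
  refine ⟨Polynomial.C y, by simp, fun i => ?_, by simp⟩
  rw [Polynomial.coeff_C]
  split_ifs
  · exact hy
  · exact Submodule.zero_mem _

private theorem OPBap_four (k : ℕ) : ((4 : ℚ) ^ k) = 2 ^ (2 * k) := by
  rw [pow_mul]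
  norm_num

private theorem OPBap_int2_four (k : ℕ) : Int2 (PowerSeries.C ((4 : ℚ) ^ k)) := by
  rw [OPBap_four]
  exact int2_C_pow _

theorem App.int {C b h : ℕ} {y : ℚ⟦X⟧} (hy : App A C b h y) : Int2 y := by
  obtain ⟨v, _, h2⟩ := hy
  have h3 := h2 0
  rw [Finset.sum_range_zero] at h3
  exact Cg.int h3 int2_zero

theorem App.mono (hA : Lev φ R c A) {C b b' h h' : ℕ} (hb : b ≤ b') (hh : h ≤ h') {y : ℚ⟦X⟧}
    (hy : App A C b h y) : App A C b' h' y := by
  obtain ⟨v, h1, h2⟩ := hy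
  exact ⟨v, fun i => ⟨(h1 i).1, ZA_mono hA (by omega) hh (h1 i).2⟩, h2⟩

theorem App.const {C b h : ℕ} {y : ℚ⟦X⟧} (h1 : Int2 y) (h2 : ZA A b h y) : App A C b h y := by
  refine ⟨fun i => if i = 0 then y else 0, fun i => ?_, fun i => ?_⟩
  · show Int2 (if i = 0 then y else 0) ∧ ZA A (C * i + b) h (if i = 0 then y else 0)
    by_cases hi : i = 0
    · subst hi
      rw [if_pos rfl, Nat.mul_zero, Nat.zero_add]
      exact ⟨h1, h2⟩
    · rw [if_neg hi]
      exact ⟨int2_zero, ZA_zero _ _⟩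
  · rcases Nat.eq_zero_or_pos i with hi | hi
    · subst hi
      refine ⟨y, h1, ?_⟩
      simp
    · have h3 : ∑ j ∈ Finset.range i, PowerSeries.C ((4 : ℚ) ^ j) *
          (if j = 0 then y else 0) = y := by
        rw [Finset.sum_eq_single_of_mem 0 (Finset.mem_range.2 hi)]
        · simp
        · intro j _ hj
          rw [if_neg hj, mul_zero]
      rw [h3]
      exact Cg.refl _ _

theorem App.mul (hA : Lev φ R c A) {C b b' h h' : ℕ} {y y' : ℚ⟦X⟧} (hy : App A C b h y)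
    (hy' : App A C b' h' y') : App A C (b + b' + c) (h + h') (y * y') := by
  classical
  have hyi := hy.int
  obtain ⟨v, h1, h2⟩ := hy
  obtain ⟨v', h1', h2'⟩ := hy'
  refine ⟨fun s => ∑ p ∈ Finset.HasAntidiagonal.antidiagonal s, v p.1 * v' p.2, fun s => ⟨?_, ?_⟩, fun i => ?_⟩
  · exact int2_sum _ _ fun p _ => int2_mul (h1 p.1).1 (h1' p.2).1
  · apply ZA_sum
    intro p hp
    have hps : p.1 + p.2 = s := Finset.HasAntidiagonal.mem_antidiagonal.1 hp
    apply ZA_mono hA _ le_rfl (ZA_mul hA (h1 p.1).2 (h1' p.2).2)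
    rw [← hps]
    apply le_of_eq
    ring
  · have hYi : Int2 (∑ j ∈ Finset.range i, PowerSeries.C ((4 : ℚ) ^ j) * v' j) :=
      int2_sum _ _ fun j _ => int2_mul (OPBap_int2_four j) (h1' j).1
    refine Cg.trans (Cg.mul (h2 i) (h2' i) hyi hYi) ?_
    set F : ℕ × ℕ → ℚ⟦X⟧ := fun p => PowerSeries.C ((4 : ℚ) ^ (p.1 + p.2)) * (v p.1 * v' p.2) with hF
    have e1 : (∑ j ∈ Finset.range i, PowerSeries.C ((4 : ℚ) ^ j) * v j) *
        (∑ j ∈ Finset.range i, PowerSeries.C ((4 : ℚ) ^ j) * v' j) =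
        ∑ p ∈ Finset.range i ×ˢ Finset.range i, F p := by
      rw [Finset.sum_mul_sum, Finset.sum_product]
      apply Finset.sum_congr rfl
      intro a _
      apply Finset.sum_congr rfl
      intro d _
      rw [hF]
      simp only
      rw [pow_add, map_mul]
      ring
    have e2 : ∑ s ∈ Finset.range i, PowerSeries.C ((4 : ℚ) ^ s) *
        (∑ p ∈ Finset.HasAntidiagonal.antidiagonal s, v p.1 * v' p.2) =
        ∑ p ∈ (Finset.range i ×ˢ Finset.range i).filter (fun p => p.1 + p.2 < i), F p := by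
      rw [← Finset.sum_fiberwise_of_maps_to (s := (Finset.range i ×ˢ Finset.range i).filter
        (fun p => p.1 + p.2 < i)) (t := Finset.range i) (g := fun p => p.1 + p.2)]
      · apply Finset.sum_congr rfl
        intro s hs
        have hs' := Finset.mem_range.1 hs
        have hset : ((Finset.range i ×ˢ Finset.range i).filter (fun p => p.1 + p.2 < i)).filter
            (fun p => p.1 + p.2 = s) = Finset.HasAntidiagonal.antidiagonal s := by
          ext p
          simp only [Finset.mem_filter, Finset.mem_product, Finset.mem_range,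
            Finset.HasAntidiagonal.mem_antidiagonal]
          constructor
          · rintro ⟨_, h⟩
            exact h
          · intro h
            refine ⟨⟨⟨?_, ?_⟩, ?_⟩, h⟩ <;> omega
        rw [hset, Finset.mul_sum]
        apply Finset.sum_congr rfl
        intro p hp
        rw [hF]
        simp only
        rw [Finset.HasAntidiagonal.mem_antidiagonal.1 hp]
      · intro p hp
        exact Finset.mem_range.2 (Finset.mem_filter.1 hp).2
    rw [e1, e2]
    refine ⟨∑ p ∈ (Finset.range i ×ˢ Finset.range i).filter (fun p => ¬ (p.1 + p.2 < i)),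
      PowerSeries.C ((4 : ℚ) ^ (p.1 + p.2 - i)) * (v p.1 * v' p.2), ?_, ?_⟩
    · exact int2_sum _ _ fun p _ => int2_mul (OPBap_int2_four _) (int2_mul (h1 p.1).1 (h1' p.2).1)
    · rw [← Finset.sum_filter_add_sum_filter_not (Finset.range i ×ˢ Finset.range i)
        (fun p => p.1 + p.2 < i), add_sub_cancel_left, Finset.mul_sum]
      apply Finset.sum_congr rfl
      intro p hp
      have hp2 : i ≤ p.1 + p.2 := not_lt.1 (Finset.mem_filter.1 hp).2
      rw [hF]
      simp only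
      have e3 : PowerSeries.C ((2 : ℚ) ^ (2 * i)) * PowerSeries.C ((4 : ℚ) ^ (p.1 + p.2 - i)) =
          PowerSeries.C ((4 : ℚ) ^ (p.1 + p.2)) := by
        rw [← map_mul, ← OPBap_four, ← pow_add, Nat.add_sub_cancel' hp2]
      rw [← e3]
      ring

theorem App.pow (hA : Lev φ R c A) {C b h : ℕ} {y : ℚ⟦X⟧} (hy : App A C b h y) (l : ℕ) :
    App A C ((b + c) * l + c) (h * l) (y ^ l) := by
  induction l with
  | zero =>
    rw [pow_zero, Nat.mul_zero, Nat.mul_zero, Nat.zero_add]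
    exact App.const int2_one (OPBap_ZA_of_mem hA.one)
  | succ l ih =>
    rw [pow_succ]
    have h1 := App.mul hA ih hy
    refine App.mono hA (le_of_eq ?_) (le_of_eq ?_) h1
    · ring
    · ring

theorem App_z (hA : Lev φ R c A) (C : ℕ) : App A C c 1 zW := by
  apply App.const int2_zW
  refine ⟨Polynomial.X, Polynomial.natDegree_X_le, fun i => ?_, by simp⟩
  rw [Polynomial.coeff_X]
  split_ifs
  · exact hA.one
  · exact Submodule.zero_mem _

theorem App_t (hA : Lev φ R c A) (C : ℕ) : App A C c 0 tq :=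
  App.const int2_tq (OPBap_ZA_of_mem hA.tmem)

end Pool.Agent.H74.OP
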