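import Pool.Agent.H74.OP.Bev

/-!
# Row OPBcf (project OP, block B): the coefficients of `nabs` stay in `A`, 2-integral, odd

`Lev φ R c A`.  `GW ∈ A (7 c)`: `tq ∈ A c`, `tq² ∈ A (3c)`, `tq⁴ ∈ A (7c)`, and `GW = 16 tq² - 256 tq⁴` (rational multiples; `mono`).  So multiplication by `GW` maps `A n` to `A (n + 8c)`.  `cc = 8 c`.
* `QA A n`: closed under sums, rational multiples by `C q` with `q` 2-integral, monotone in `n`; `QA A n y → QA A (n + cc) (delW y)` (`del`, `int2_delW`, `odd_delW`), `QA A n y → QA A (n + cc) (GW * y)`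
  (`even_mul_odd`, `int2_GW`, `even_GW`).
* `QA_nabs`: by induction on `m`: the coefficient `i` of `nab d g w P` is `d P_i + (i+1) g P_(i+1) + (w - (i-1)) P_(i-1)` (last term absent for `i = 0`; `coeff_dext`, or directly), an integer combination.
* `QA_Lam`: iterate `delW`.  `QA_Lop`: `Lop_eq` and `QA_nabs` with `m = κ + 1`.
* `int2_nabs`: same induction for `Int2` only.
-/

open PowerSeries
open Pool.Agent.H85.OT
open Pool.Agent.H85.OU
open Pool.Agent.H46.OP

namespace Pool.Agent.H74.OP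

variable {φ : ℚ⟦X⟧} {R c : ℕ} {A : ℕ → Submodule ℚ ℚ⟦X⟧}

private lemma OPBcf_coeff_zero {R : Type*} [CommRing R] (d : Dv R) (g : R) (w : ℤ)
    (P : Polynomial R) : (nab d g w P).coeff 0 = d (P.coeff 0) + g * P.coeff 1 := by
  unfold nab
  have h2 : ((w : Polynomial R) * Polynomial.X * P).coeff 0 = 0 := by
    rw [mul_assoc, mul_comm, mul_assoc, Polynomial.coeff_X_mul_zero]
  have h1 : (Polynomial.X ^ 2 * Polynomial.derivative P).coeff 0 = 0 := by
    rw [pow_two, mul_assoc, Polynomial.coeff_X_mul_zero]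
  rw [Polynomial.coeff_add, coeff_dext, sub_mul, Polynomial.coeff_sub, Polynomial.coeff_C_mul,
    Polynomial.coeff_derivative, h1, h2]
  push_cast
  ring

private lemma OPBcf_coeff_succ {R : Type*} [CommRing R] (d : Dv R) (g : R) (w : ℤ)
    (P : Polynomial R) (m : ℕ) : (nab d g w P).coeff (m + 1) = d (P.coeff (m + 1)) +
      (((m + 2 : ℕ) : ℤ) : R) * (g * P.coeff (m + 2)) + ((w - m : ℤ) : R) * P.coeff m := by
  unfold nab
  rw [Polynomial.coeff_add, coeff_dext, sub_mul, Polynomial.coeff_sub, Polynomial.coeff_C_mul,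
    Polynomial.coeff_derivative]
  have h1 : (Polynomial.X ^ 2 * Polynomial.derivative P).coeff (m + 1) = (m : R) * P.coeff m := by
    rw [pow_two, mul_assoc, Polynomial.coeff_X_mul]
    rcases m with _ | m
    · simp
    · rw [Polynomial.coeff_X_mul, Polynomial.coeff_derivative]
      push_cast; ring
  have h2 : ((w : Polynomial R) * Polynomial.X * P).coeff (m + 1) = (w : R) * P.coeff m := by
    have : ((w : ℤ) : Polynomial R) = Polynomial.C (w : R) := by simp
    rw [this, mul_assoc, Polynomial.coeff_C_mul, Polynomial.coeff_X_mul]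
  rw [h1, h2]
  push_cast
  ring_nf

private lemma OPBcf_intCast (k : ℤ) : ((k : ℤ) : ℚ⟦X⟧) = PowerSeries.C (k : ℚ) := by
  rw [map_intCast]

private lemma OPBcf_GW (hA : Lev φ R c A) : GW ∈ A (7 * c) := by
  have h2 : tq * tq ∈ A (c + c + c) := hA.mul hA.tmem hA.tmem
  have h4 : (tq * tq) * (tq * tq) ∈ A (c + c + c + (c + c + c) + c) := hA.mul h2 h2
  have h2' : tq * tq ∈ A (7 * c) := hA.mono (by omega) h2
  have h4' : (tq * tq) * (tq * tq) ∈ A (7 * c) := hA.mono (by omega) h4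
  have e : GW = (16 : ℚ) • (tq * tq) - (256 : ℚ) • ((tq * tq) * (tq * tq)) := by
    unfold GW
    rw [PowerSeries.smul_eq_C_mul, PowerSeries.smul_eq_C_mul]
    have e1 : (PowerSeries.C (16 : ℚ) : ℚ⟦X⟧) = 16 := map_ofNat _ 16
    have e2 : (PowerSeries.C (256 : ℚ) : ℚ⟦X⟧) = 256 := map_ofNat _ 256
    rw [e1, e2]
    ring
  rw [e]
  exact (A (7 * c)).sub_mem ((A (7 * c)).smul_mem _ h2') ((A (7 * c)).smul_mem _ h4')

private lemma OPBcf_QA_zero (n : ℕ) : QA A n 0 := ⟨(A n).zero_mem, int2_zero, odd_zero⟩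

theorem QA_mono (hA : Lev φ R c A) {n m : ℕ} (h : n ≤ m) {y : ℚ⟦X⟧} (hy : QA A n y) : QA A m y :=
  ⟨hA.mono h hy.1, hy.2.1, hy.2.2⟩

theorem QA_add {n : ℕ} {y y' : ℚ⟦X⟧} (hy : QA A n y) (hy' : QA A n y') : QA A n (y + y') :=
  ⟨(A n).add_mem hy.1 hy'.1, int2_add hy.2.1 hy'.2.1, odd_add hy.2.2 hy'.2.2⟩

theorem QA_C_mul {n : ℕ} {q : ℚ} (hq : padicNorm 2 q ≤ 1) {y : ℚ⟦X⟧} (hy : QA A n y) :
    QA A n (PowerSeries.C q * y) := by
  refine ⟨?_, int2_mul (int2_C hq) hy.2.1, odd_C_mul q hy.2.2⟩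
  rw [← PowerSeries.smul_eq_C_mul]
  exact (A n).smul_mem _ hy.1

private lemma OPBcf_QA_int {n : ℕ} (k : ℤ) {y : ℚ⟦X⟧} (hy : QA A n y) :
    QA A n (((k : ℤ) : ℚ⟦X⟧) * y) := by
  rw [OPBcf_intCast]
  exact QA_C_mul (by exact_mod_cast padicNorm.of_int (p := 2) k) hy

theorem QA_del (hA : Lev φ R c A) {n : ℕ} {y : ℚ⟦X⟧} (hy : QA A n y) : QA A (n + 8 * c) (delW y) :=
  ⟨hA.mono (by omega) (hA.del hy.1), int2_delW hy.2.1, odd_delW hy.2.2⟩

theorem QA_G (hA : Lev φ R c A) {n : ℕ} {y : ℚ⟦X⟧} (hy : QA A n y) : QA A (n + 8 * c) (GW * y) :=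
  ⟨hA.mono (by omega) (hA.mul (OPBcf_GW hA) hy.1), int2_mul int2_GW hy.2.1,
    even_mul_odd even_GW hy.2.2⟩

theorem QA_nabs (hA : Lev φ R c A) (κ m : ℕ) {n : ℕ} {y : ℚ⟦X⟧} (hy : QA A n y) (i : ℕ) :
    QA A (n + 8 * c * m) ((nabs delW GW κ m y).coeff i) := by
  induction m generalizing i with
  | zero =>
    change QA A _ ((Polynomial.C y).coeff i)
    rw [Polynomial.coeff_C]
    split_ifs
    · exact QA_mono hA (by omega) hy
    · exact OPBcf_QA_zero _
  | succ m ih =>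
    have e : n + 8 * c * (m + 1) = n + 8 * c * m + 8 * c := by ring
    rw [e]
    change QA A _ ((nab delW GW (-(κ : ℤ) + 2 * m) (nabs delW GW κ m y)).coeff i)
    rcases i with _ | i
    · rw [OPBcf_coeff_zero]
      exact QA_add (QA_del hA (ih 0)) (QA_G hA (ih 1))
    · rw [OPBcf_coeff_succ]
      refine QA_add (QA_add (QA_del hA (ih (i + 1))) ?_) ?_
      · exact OPBcf_QA_int _ (QA_G hA (ih (i + 2)))
      · exact OPBcf_QA_int _ (QA_mono hA (by omega) (ih i))

theorem QA_Lam (hA : Lev φ R c A) (κ : ℕ) {n : ℕ} {y : ℚ⟦X⟧} (hy : QA A n y) :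
    QA A (n + 8 * c * (κ + 1)) (Lam κ y) := by
  have h : ∀ k : ℕ, QA A (n + 8 * c * k) ((delW.toFun)^[k] y) := by
    intro k
    induction k with
    | zero => exact QA_mono hA (by omega) hy
    | succ k ih =>
      rw [Function.iterate_succ_apply']
      have e : n + 8 * c * (k + 1) = n + 8 * c * k + 8 * c := by ring
      rw [e]
      exact QA_del hA ih
  exact h (κ + 1)

theorem QA_Lop (hA : Lev φ R c A) (κ : ℕ) {n : ℕ} {y : ℚ⟦X⟧} (hy : QA A n y) :
    QA A (n + 8 * c * (κ + 1)) (Lop κ y) := by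
  rw [Lop_eq]
  exact QA_nabs hA κ (κ + 1) hy 0

theorem int2_nabs (κ m : ℕ) {y : ℚ⟦X⟧} (hy : Int2 y) (i : ℕ) :
    Int2 ((nabs delW GW κ m y).coeff i) := by
  induction m generalizing i with
  | zero =>
    change Int2 ((Polynomial.C y).coeff i)
    rw [Polynomial.coeff_C]
    split_ifs
    · exact hy
    · exact int2_zero
  | succ m ih =>
    change Int2 ((nab delW GW (-(κ : ℤ) + 2 * m) (nabs delW GW κ m y)).coeff i)
    rcases i with _ | i
    · rw [OPBcf_coeff_zero]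
      exact int2_add (int2_delW (ih 0)) (int2_mul int2_GW (ih 1))
    · rw [OPBcf_coeff_succ]
      refine int2_add (int2_add (int2_delW (ih (i + 1))) ?_) ?_
      · exact int2_mul (int2_intCast _) (int2_mul int2_GW (ih (i + 2)))
      · exact int2_mul (int2_intCast _) (ih i)

end Pool.Agent.H74.OP
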