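import Pool.Agent.H74.OP.Bint

/-!
# Row OPBth (project OP, block B): theta facts at the prime 2

* `th3 = 1 + 2 w` (`w = ∑_(n ≥ 1) q^(n²)`), so `th3² = 1 + 4 w'`, `w' = w + w²`, and `W = dbl (th3²) = 1 + 4 dbl w'`: 2-integral, even (`even_dbl`), constant coefficient `1`.
* `W⁻¹ = dbl (U⁻¹)` (`dbl` is a ring homomorphism, `U U⁻¹ = 1` by `U_mul_inv`), and `U⁻¹` is the image of an integral series (`th3²` has constant coefficient `1`, so it is a unit of `ℤ⟦X⟧`): 2-integral, even.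
* `W⁻¹ - 1 = -(W - 1) W⁻¹ = -4 (dbl w') W⁻¹`.
* `coeff n (th4²) = (-1)^n coeff n (th3²)` (`coeff a th4 = (-1)^a coeff a th3`, `PowerSeries.coeff_mul`).  So `U - V` has coefficient `0` at even `n`, and `2 · coeff n (th3²) = 8 w'_n` at odd `n`
  (`n ≥ 1`).  So `s` has coefficients `w'_n` at odd `n`, `0` at even `n`: 2-integral, odd, integral (`exists_sZ`); coefficient `1` is `w'_1 = w_1 = 1`.
* `t = s W⁻¹`: 2-integral, odd, coefficient `1` equal to `1`; `t ≠ 0`.  `GW = 16 t²(1 - 16t²)`: 2-integral, even.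
* `delW a = W⁻² D a`: 2-integral if `a` is; odd if `a` is odd; even if `a` even; `Cg 2 (delW a) (D a)`: `W⁻² ≡ 1`.
* `zW = (D W) W⁻³`: 2-integral and even (`D W` is even: coefficient `n` is `n W_n`).
-/

open PowerSeries
open Pool.Agent.H85.OT
open Pool.Agent.H85.OU
open Pool.Agent.H46.OP

namespace Pool.Agent.H74.OP

/-- `∑_(n ≥ 1) q^(n²)` -/
private noncomputable def OPBth_w : ℤ⟦X⟧ :=
  PowerSeries.mk fun n => if n = 0 then 0 else if IsSquare n then 1 else 0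

private noncomputable def OPBth_w' : ℤ⟦X⟧ := OPBth_w + OPBth_w ^ 2

private theorem OPBth_th3 : th3 = 1 + 2 * OPBth_w := by
  ext n
  have h2 : (2 : ℤ⟦X⟧) = PowerSeries.C (2 : ℤ) := by
    rw [map_ofNat]
  rw [map_add, h2, PowerSeries.coeff_C_mul, PowerSeries.coeff_one, th3, OPBth_w,
    PowerSeries.coeff_mk, PowerSeries.coeff_mk]
  by_cases h0 : n = 0
  · simp [h0]
  · by_cases hs : IsSquare n
    · simp [h0, hs]
    · simp [h0, hs]

private theorem OPBth_th3sq : th3 ^ 2 = 1 + PowerSeries.C (4 : ℤ) * OPBth_w' := by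
  have h4 : PowerSeries.C (4 : ℤ) = (4 : ℤ⟦X⟧) := by rw [map_ofNat]
  rw [OPBth_th3, OPBth_w', h4]
  ring

private theorem OPBth_th4 : th4 = PowerSeries.rescale (-1 : ℤ) th3 := by
  ext n
  rw [PowerSeries.coeff_rescale, th4, PowerSeries.coeff_mk]

private theorem OPBth_th4sq (n : ℕ) :
    PowerSeries.coeff n (th4 ^ 2) = (-1) ^ n * PowerSeries.coeff n (th3 ^ 2) := by
  rw [OPBth_th4, ← map_pow, PowerSeries.coeff_rescale]

private theorem OPBth_Wq_map :
    Wq = PowerSeries.map (Int.castRingHom ℚ) (dbl ℤ (th3 ^ 2)) := by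
  rw [Wq, U, fld_map_dbl]

private theorem OPBth_cc : PowerSeries.constantCoeff (dbl ℤ (th3 ^ 2)) = 1 := by
  unfold dbl
  rw [PowerSeries.constantCoeff_expand, map_pow, fld_c3, one_pow]

private theorem OPBth_ccW : PowerSeries.constantCoeff Wq = 1 := by
  rw [Wq]
  unfold dbl
  rw [PowerSeries.constantCoeff_expand, constCoeff_U]

theorem Wq_mul_inv : Wq * Wq⁻¹ = 1 :=
  PowerSeries.mul_inv_cancel _ (by rw [OPBth_ccW]; exact one_ne_zero)

theorem Wq_ne_zero : Wq ≠ 0 := by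
  intro h
  have h1 := Wq_mul_inv
  rw [h, zero_mul] at h1
  exact zero_ne_one h1

theorem Wq_inv_ne_zero : Wq⁻¹ ≠ 0 := by
  intro h
  have h1 := Wq_mul_inv
  rw [h, mul_zero] at h1
  exact zero_ne_one h1

private theorem OPBth_inv {y : ℚ⟦X⟧} (h : Wq * y = 1) : Wq⁻¹ = y := by
  calc Wq⁻¹ = Wq⁻¹ * (Wq * y) := by rw [h, mul_one]
    _ = (Wq * Wq⁻¹) * y := by ring
    _ = y := by rw [Wq_mul_inv, one_mul]

theorem Wq_inv_eq : Wq⁻¹ = dbl ℚ ((U ℚ)⁻¹) := by
  apply OPBth_inv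
  rw [Wq, ← map_mul, U_mul_inv, map_one]

theorem coeff_zero_Wq : PowerSeries.coeff 0 Wq = 1 := by
  rw [PowerSeries.coeff_zero_eq_constantCoeff_apply, OPBth_ccW]

theorem coeff_zero_Wq_inv : PowerSeries.coeff 0 Wq⁻¹ = 1 := by
  have h1 := congrArg PowerSeries.constantCoeff Wq_mul_inv
  rw [map_mul, OPBth_ccW, one_mul, map_one] at h1
  rw [PowerSeries.coeff_zero_eq_constantCoeff_apply, h1]

theorem int2_Wq : Int2 Wq := by
  rw [OPBth_Wq_map]
  exact int2_map _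

private theorem OPBth_inv_map : ∃ v : ℤ⟦X⟧, Wq⁻¹ = PowerSeries.map (Int.castRingHom ℚ) v := by
  refine ⟨PowerSeries.invOfUnit (dbl ℤ (th3 ^ 2)) 1, OPBth_inv ?_⟩
  rw [OPBth_Wq_map, ← map_mul, PowerSeries.mul_invOfUnit _ _ (by rw [OPBth_cc, Units.val_one]),
    map_one]

theorem int2_Wq_inv : Int2 Wq⁻¹ := by
  obtain ⟨v, hv⟩ := OPBth_inv_map
  rw [hv]
  exact int2_map _

theorem even_Wq : Evn Wq := by
  rw [Wq]
  exact even_dbl _

theorem even_Wq_inv : Evn Wq⁻¹ := by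
  rw [Wq_inv_eq]
  exact even_dbl _

private theorem OPBth_Wq_sub : Wq - 1 =
    PowerSeries.C ((2 : ℚ) ^ 2) * PowerSeries.map (Int.castRingHom ℚ) (dbl ℤ OPBth_w') := by
  rw [OPBth_Wq_map, OPBth_th3sq, map_add, map_one, map_mul, map_add, map_one, map_mul]
  have h1 : PowerSeries.map (Int.castRingHom ℚ) (dbl ℤ (PowerSeries.C (4 : ℤ))) =
      PowerSeries.C ((2 : ℚ) ^ 2) := by
    have h4 : PowerSeries.C (4 : ℤ) = (4 : ℤ⟦X⟧) := by rw [map_ofNat]
    have h5 : (2 : ℚ) ^ 2 = 4 := by norm_num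
    rw [h4, map_ofNat, map_ofNat, h5, map_ofNat]
  rw [h1]
  ring

theorem Cg_Wq : Cg 2 Wq 1 := ⟨_, int2_map _, OPBth_Wq_sub⟩

theorem Cg_Wq_inv : Cg 2 Wq⁻¹ 1 := by
  refine ⟨-PowerSeries.map (Int.castRingHom ℚ) (dbl ℤ OPBth_w') * Wq⁻¹,
    int2_mul (int2_neg (int2_map _)) int2_Wq_inv, ?_⟩
  have h1 := OPBth_Wq_sub
  have h2 := Wq_mul_inv
  calc Wq⁻¹ - 1 = Wq⁻¹ - Wq * Wq⁻¹ := by rw [h2]
    _ = -(Wq - 1) * Wq⁻¹ := by ring
    _ = _ := by rw [h1]; ring

/-- `W` is the image of an integral series with constant coefficient `1` -/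
theorem exists_WZ : ∃ w : ℤ⟦X⟧, PowerSeries.coeff 0 w = 1 ∧
    PowerSeries.map (Int.castRingHom ℚ) w = Wq :=
  ⟨dbl ℤ (th3 ^ 2), by rw [PowerSeries.coeff_zero_eq_constantCoeff_apply, OPBth_cc],
    OPBth_Wq_map.symm⟩

private noncomputable def OPBth_s : ℤ⟦X⟧ :=
  PowerSeries.mk fun n => if 2 ∣ n then 0 else PowerSeries.coeff n OPBth_w'

private theorem OPBth_sq : sq = PowerSeries.map (Int.castRingHom ℚ) OPBth_s := by
  ext n
  unfold Pool.Agent.H46.OP.sq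
  rw [PowerSeries.coeff_C_mul, map_sub, U, V, PowerSeries.coeff_map, PowerSeries.coeff_map,
    PowerSeries.coeff_map, OPBth_th4sq, OPBth_s, PowerSeries.coeff_mk]
  by_cases h : 2 ∣ n
  · have h1 : Even n := even_iff_two_dvd.2 h
    rw [if_pos h, h1.neg_one_pow]
    simp
  · have h1 : Odd n := by
      rw [← Nat.not_even_iff_odd, even_iff_two_dvd]
      exact h
    have h0 : n ≠ 0 := by
      rintro rfl
      exact h (dvd_zero _)
    rw [if_neg h, h1.neg_one_pow, OPBth_th3sq, map_add, PowerSeries.coeff_C_mul,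
      PowerSeries.coeff_one, if_neg h0]
    simp only [eq_intCast]
    push_cast
    ring

theorem exists_sZ : ∃ w : ℤ⟦X⟧, PowerSeries.coeff 0 w = 0 ∧ PowerSeries.coeff 1 w = 1 ∧
    PowerSeries.map (Int.castRingHom ℚ) w = sq := by
  refine ⟨OPBth_s, ?_, ?_, OPBth_sq.symm⟩
  · rw [OPBth_s, PowerSeries.coeff_mk, if_pos (dvd_zero _)]
  · have h0 : PowerSeries.constantCoeff OPBth_w = 0 := by
      rw [← PowerSeries.coeff_zero_eq_constantCoeff_apply, OPBth_w, PowerSeries.coeff_mk, if_pos rfl]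
    have h1 : PowerSeries.coeff 1 OPBth_w = 1 := by
      rw [OPBth_w, PowerSeries.coeff_mk, if_neg one_ne_zero, if_pos ⟨1, rfl⟩]
    rw [OPBth_s, PowerSeries.coeff_mk, if_neg (by norm_num), OPBth_w', map_add, pow_two,
      PowerSeries.coeff_one_mul, h0, h1]
    norm_num

theorem odd_sq : Odn sq := by
  intro n hn
  rw [OPBth_sq, PowerSeries.coeff_map, OPBth_s, PowerSeries.coeff_mk, if_pos hn, map_zero]

theorem int2_sq : Int2 sq := by
  rw [OPBth_sq]
  exact int2_map _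

theorem odd_tq : Odn tq := by
  rw [tq, mul_comm]
  exact even_mul_odd even_Wq_inv odd_sq

theorem int2_tq : Int2 tq := int2_mul int2_sq int2_Wq_inv

theorem coeff_zero_tq : PowerSeries.coeff 0 tq = 0 := odd_tq 0 (dvd_zero _)

theorem coeff_one_tq : PowerSeries.coeff 1 tq = 1 := by
  obtain ⟨w, h0, h1, hw⟩ := exists_sZ
  have e0 : PowerSeries.constantCoeff sq = 0 := by
    rw [← PowerSeries.coeff_zero_eq_constantCoeff_apply]
    exact odd_sq 0 (dvd_zero _)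
  have e1 : PowerSeries.coeff 1 sq = 1 := by
    rw [← hw, PowerSeries.coeff_map, h1, map_one]
  have e2 : PowerSeries.constantCoeff Wq⁻¹ = 1 := by
    rw [← PowerSeries.coeff_zero_eq_constantCoeff_apply]
    exact coeff_zero_Wq_inv
  rw [tq, PowerSeries.coeff_one_mul, e0, e1, e2]
  ring

theorem tq_ne_zero : tq ≠ 0 := by
  intro h
  have h1 := coeff_one_tq
  rw [h, map_zero] at h1
  exact zero_ne_one h1

private theorem OPBth_int16 : Int2 (16 : ℚ⟦X⟧) := by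
  have h := int2_natCast 16
  exact_mod_cast h

private theorem OPBth_even16 : Evn (16 : ℚ⟦X⟧) := by
  have h := even_natCast 16
  exact_mod_cast h

private theorem OPBth_even1 : Evn (1 : ℚ⟦X⟧) := by
  have h := even_natCast 1
  exact_mod_cast h

private theorem OPBth_even_tq2 : Evn (tq ^ 2) := by
  rw [pow_two]
  exact odd_mul_odd odd_tq odd_tq

theorem int2_GW : Int2 GW := by
  rw [GW]
  exact int2_mul (int2_mul OPBth_int16 (int2_pow int2_tq 2))
    (int2_sub int2_one (int2_mul OPBth_int16 (int2_pow int2_tq 2)))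

theorem even_GW : Evn GW := by
  rw [GW]
  exact even_mul (even_mul OPBth_even16 OPBth_even_tq2)
    (even_sub OPBth_even1 (even_mul OPBth_even16 OPBth_even_tq2))

private theorem OPBth_even_Dq {a : ℚ⟦X⟧} (ha : Evn a) : Evn (Dq ℚ a) := by
  intro n hn
  rw [coeff_Dq, ha n hn, mul_zero]

theorem int2_delW {a : ℚ⟦X⟧} (ha : Int2 a) : Int2 (delW a) := by
  rw [delW_apply]
  exact int2_mul (int2_pow int2_Wq_inv 2) (int2_Dq ha)

theorem odd_delW {a : ℚ⟦X⟧} (ha : Odn a) : Odn (delW a) := by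
  rw [delW_apply]
  exact even_mul_odd (even_pow even_Wq_inv 2) (odd_Dq ha)

theorem even_delW {a : ℚ⟦X⟧} (ha : Evn a) : Evn (delW a) := by
  rw [delW_apply]
  exact even_mul (even_pow even_Wq_inv 2) (OPBth_even_Dq ha)

theorem Cg_delW {a : ℚ⟦X⟧} (ha : Int2 a) : Cg 2 (delW a) (Dq ℚ a) := by
  rw [delW_apply]
  have h1 : Cg 2 (Wq⁻¹ * Wq⁻¹) (1 * 1) := Cg.mul Cg_Wq_inv Cg_Wq_inv int2_Wq_inv int2_one
  have h2 : Cg 2 (Wq⁻¹ * Wq⁻¹ * Dq ℚ a) (1 * 1 * Dq ℚ a) :=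
    Cg.mul h1 (Cg.refl 2 _) (int2_mul int2_Wq_inv int2_Wq_inv) (int2_Dq ha)
  rw [one_mul, one_mul, ← pow_two] at h2
  exact h2

theorem int2_zW : Int2 zW := by
  rw [zW]
  exact int2_mul (int2_Dq int2_Wq) (int2_pow int2_Wq_inv 3)

theorem even_zW : Evn zW := by
  rw [zW]
  exact even_mul (OPBth_even_Dq even_Wq) (even_pow even_Wq_inv 3)

end Pool.Agent.H74.OP
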