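import Pool.Agent.H74.OP.Bid
import Pool.Agent.H74.OP.Bth

/-!
# Row OPBev (project OP, block B): evaluation at `z`, Bol's identity

`∂ = dext delW (C GW - X²)` on `ℚ⟦X⟧[X]`.
* `eval_dext`: `(∂P)(z) = delW (P(z))`: `P = ∑ p_i X^i`: `delW (p_i z^i) = (delW p_i) z^i + p_i i z^(i-1) (GW - z²)` (`delW_zW`, `Dv.map_pow`, `Dv.map_sum`).  Induction on `P` (`Polynomial.induction_on'`:
  sums and monomials) is convenient (`mapc_add`, `dext` is a `Dv`).
* `Dq_iter`: `D^n (W^(-κ) y) = W^(-κ) W^(2n) (nabs delW GW κ n y)(z)`: induction on `n`: `D a = W² delW a`;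
  `delW (W^(-κ) W^(2n) E) = W^(-κ) W^(2n) ((2n - κ) z E + delW E)` (`delW_Wq`, `delW_Wq_inv`), and `(2n - κ) z E + delW E = (nab delW GW (-κ + 2n) (nabs .. n y))(z)` for `E = (nabs .. n y)(z)`.
* `Lop_eq`: `Lop κ y = W^(-κ-2) W^(-κ) W^(2κ+2) (nabs κ (κ+1) y)(z)`, and `nabs delW GW κ (κ+1) y = C b` by `bol_alg` (`OU/Bol.lean`; `ℚ⟦X⟧` is a domain of characteristic `0`), so
  `Lop κ y = b = coeff 0 (nabs ..)`.
* `T1_eq`: `F1 f = D^κ (FK f κ)` when `coeff 0 f = 0` (coefficient `n ≥ 1`: `n^κ a_n n^(-κ-1) = a_n / n`; `n = 0`: `a_0/0 = 0`; for `κ = 0` also fine), `FK = W^(-κ) y0`, so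
  `T1 = W^(-κ) D^κ (W^(-κ) y0) = W^(-κ) W^(-κ) W^(2κ) (nabs κ κ y0)(z)`.
* `Lop_y0`: `W^(-κ) y0 = FK`, `D^(κ+1) FK = f` (`coeff 0 f = 0`), so `Lop κ y0 = W^(-κ-2) f = phiW f (κ + 2)`.
* `nabs_add`, `nabs_C`: `nab` is additive and commutes with multiplication by constants `C (C c)`, `c ∈ ℚ` (`delW (C c * a) = C c * delW a` since `Dq ℚ` is a derivation over `ℚ`).
-/

open PowerSeries
open Pool.Agent.H85.OT
open Pool.Agent.H85.OU
open Pool.Agent.H46.OP

namespace Pool.Agent.H74.OP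

theorem delW_C_mul (c : ℚ) (a : ℚ⟦X⟧) : delW (PowerSeries.C c * a) = PowerSeries.C c * delW a := by
  rw [delW_apply, delW_apply]
  have h : Dq ℚ (PowerSeries.C c * a) = PowerSeries.C c * Dq ℚ a := by
    rw [← PowerSeries.smul_eq_C_mul, ← PowerSeries.smul_eq_C_mul]
    exact Derivation.map_smul _ _ _
  rw [h]
  ring

theorem delW_add (a b : ℚ⟦X⟧) : delW (a + b) = delW a + delW b := Dv.map_add _ _ _

theorem eval_dext (P : Polynomial ℚ⟦X⟧) :
    (dext delW (Polynomial.C GW - Polynomial.X ^ 2) P).eval zW = delW (P.eval zW) := by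
  induction P using Polynomial.induction_on' with
  | add p q hp hq =>
    rw [Dv.map_add, Polynomial.eval_add, hp, hq, Polynomial.eval_add, delW_add]
  | monomial n a =>
    rw [dext_apply]
    have h1 : mapc delW (Polynomial.monomial n a) = Polynomial.monomial n (delW a) := by
      refine Polynomial.ext fun i => ?_
      rw [coeff_mapc, Polynomial.coeff_monomial, Polynomial.coeff_monomial]
      split_ifs
      · rfl
      · exact Dv.map_zero delW
    rw [h1, Polynomial.derivative_monomial]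
    simp only [Polynomial.eval_add, Polynomial.eval_mul, Polynomial.eval_sub, Polynomial.eval_C,
      Polynomial.eval_pow, Polynomial.eval_X, Polynomial.eval_monomial]
    rw [Dv.map_mul]
    rcases n with _ | n
    · simp [Dv.map_one]
    · rw [Dv.map_pow, delW_zW]
      push_cast
      ring

theorem Dq_iter (κ n : ℕ) (y : ℚ⟦X⟧) :
    (Dq ℚ)^[n] (Wq⁻¹ ^ κ * y) = Wq⁻¹ ^ κ * Wq ^ (2 * n) * (nabs delW GW κ n y).eval zW := by
  induction n with
  | zero => simp [nabs]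
  | succ n ih =>
    rw [Function.iterate_succ_apply', ih]
    have hD : ∀ a : ℚ⟦X⟧, Dq ℚ a = Wq ^ 2 * delW a := by
      intro a
      rw [delW_apply, ← mul_assoc, ← mul_pow, Wq_mul_inv, one_pow, one_mul]
    rw [hD]
    set E := (nabs delW GW κ n y).eval zW with hE
    have h1 : (nabs delW GW κ (n + 1) y).eval zW =
        delW E + ((-(κ : ℤ) + 2 * n : ℤ) : ℚ⟦X⟧) * zW * E := by
      show (nab delW GW (-(κ : ℤ) + 2 * n) (nabs delW GW κ n y)).eval zW = _
      rw [nab, Polynomial.eval_add, eval_dext, Polynomial.eval_mul, Polynomial.eval_mul,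
        Polynomial.eval_X, Polynomial.eval_intCast]
    have h2 : ∀ m : ℕ, delW (Wq ^ m) = (m : ℚ⟦X⟧) * zW * Wq ^ m := by
      intro m
      rcases m with _ | m
      · simp [Dv.map_one]
      · rw [Dv.map_pow, delW_Wq]
        push_cast
        ring
    have h3 : ∀ m : ℕ, delW (Wq⁻¹ ^ m) = -(m : ℚ⟦X⟧) * zW * Wq⁻¹ ^ m := by
      intro m
      rcases m with _ | m
      · simp [Dv.map_one]
      · rw [Dv.map_pow, delW_Wq_inv]
        push_cast
        ring
    rw [h1, Dv.map_mul, Dv.map_mul, h2, h3]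
    push_cast
    ring

private theorem OPBev_powinv (n : ℕ) : Wq ^ n * Wq⁻¹ ^ n = 1 := by
  rw [← mul_pow, Wq_mul_inv, one_pow]

theorem Lop_eq (κ : ℕ) (y : ℚ⟦X⟧) : Lop κ y = (nabs delW GW κ (κ + 1) y).coeff 0 := by
  haveI : CharZero ℚ⟦X⟧ := algebraRat.charZero ℚ⟦X⟧
  obtain ⟨b, hb⟩ := bol_alg delW GW κ y
  rw [Lop, Dq_iter, hb, Polynomial.eval_C, Polynomial.coeff_C_zero]
  have h : Wq⁻¹ ^ (κ + 2) * (Wq⁻¹ ^ κ * Wq ^ (2 * (κ + 1))) = 1 := by
    rw [← mul_assoc, ← pow_add, mul_comm, show κ + 2 + κ = 2 * (κ + 1) by ring,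
      OPBev_powinv]
  rw [← mul_assoc, h, one_mul]

private theorem OPBev_Dq_coeff (n : ℕ) (g : ℚ⟦X⟧) (m : ℕ) :
    PowerSeries.coeff m ((Dq ℚ)^[n] g) = (m : ℚ) ^ n * PowerSeries.coeff m g := by
  induction n with
  | zero => simp
  | succ n ih =>
    rw [Function.iterate_succ_apply', coeff_Dq, ih]
    ring

private theorem OPBev_FK (f : ℤ⟦X⟧) (κ : ℕ) : Wq⁻¹ ^ κ * y0 f κ = FK f κ := by
  rw [y0, ← mul_assoc, mul_comm (Wq⁻¹ ^ κ), OPBev_powinv, one_mul]

theorem T1_eq (f : ℤ⟦X⟧) (κ : ℕ) (h0 : PowerSeries.coeff 0 f = 0) :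
    T1 f κ = (nabs delW GW κ κ (y0 f κ)).eval zW := by
  have h1 : F1 f = (Dq ℚ)^[κ] (FK f κ) := by
    ext m
    rw [OPBev_Dq_coeff, FK, F1, PowerSeries.coeff_mk, PowerSeries.coeff_mk]
    rcases Nat.eq_zero_or_pos m with rfl | hm
    · simp [h0]
    · have : (m : ℚ) ≠ 0 := by exact_mod_cast hm.ne'
      field_simp
      ring
  have h2 := Dq_iter κ κ (y0 f κ)
  rw [OPBev_FK, ← h1] at h2
  rw [T1, h2]
  have h : Wq⁻¹ ^ κ * Wq ^ (2 * κ) * Wq⁻¹ ^ κ = 1 := by
    rw [mul_right_comm, ← pow_add, mul_comm, ← two_mul, OPBev_powinv]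
  rw [mul_right_comm, h, one_mul]

theorem Lop_y0 (f : ℤ⟦X⟧) (κ : ℕ) (h0 : PowerSeries.coeff 0 f = 0) :
    Lop κ (y0 f κ) = phiW f (κ + 2) := by
  have h1 : (Dq ℚ)^[κ + 1] (FK f κ) = PowerSeries.map (Int.castRingHom ℚ) f := by
    ext m
    rw [OPBev_Dq_coeff, FK, PowerSeries.coeff_mk, PowerSeries.coeff_map]
    rcases Nat.eq_zero_or_pos m with rfl | hm
    · simp [h0]
    · have : (m : ℚ) ≠ 0 := by exact_mod_cast hm.ne'
      rw [mul_div_cancel₀]
      · rfl
      · exact pow_ne_zero _ this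
  rw [Lop, OPBev_FK, h1, phiW, mul_comm]

private theorem OPBev_nab_add (w : ℤ) (P Q : Polynomial ℚ⟦X⟧) :
    nab delW GW w (P + Q) = nab delW GW w P + nab delW GW w Q := by
  rw [nab, nab, nab, Dv.map_add]
  ring

private theorem OPBev_nab_C_mul (w : ℤ) (c : ℚ) (P : Polynomial ℚ⟦X⟧) :
    nab delW GW w (Polynomial.C (PowerSeries.C c) * P) =
      Polynomial.C (PowerSeries.C c) * nab delW GW w P := by
  have h1 : delW (PowerSeries.C c) = 0 := by
    have h := delW_C_mul c 1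
    rw [mul_one, Dv.map_one, mul_zero] at h
    exact h
  rw [nab, nab, Dv.map_mul]
  have h2 : dext delW (Polynomial.C GW - Polynomial.X ^ 2) (Polynomial.C (PowerSeries.C c)) = 0 := by
    rw [dext_apply, mapc_C, h1, Polynomial.derivative_C]
    simp
  rw [h2]
  ring

theorem nabs_add (κ n : ℕ) (a b : ℚ⟦X⟧) :
    nabs delW GW κ n (a + b) = nabs delW GW κ n a + nabs delW GW κ n b := by
  induction n with
  | zero => simp [nabs]
  | succ n ih =>
    show nab delW GW _ (nabs delW GW κ n (a + b)) = nab delW GW _ (nabs delW GW κ n a) +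
      nab delW GW _ (nabs delW GW κ n b)
    rw [ih, OPBev_nab_add]

theorem nabs_C_mul (κ n : ℕ) (c : ℚ) (a : ℚ⟦X⟧) :
    nabs delW GW κ n (PowerSeries.C c * a) = Polynomial.C (PowerSeries.C c) * nabs delW GW κ n a := by
  induction n with
  | zero => simp [nabs]
  | succ n ih =>
    show nab delW GW _ (nabs delW GW κ n (PowerSeries.C c * a)) = Polynomial.C (PowerSeries.C c) *
      nab delW GW _ (nabs delW GW κ n a)
    rw [ih, OPBev_nab_C_mul]

theorem nabs_natDegree (κ n : ℕ) (a : ℚ⟦X⟧) : (nabs delW GW κ n a).natDegree ≤ n := by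
  induction n with
  | zero => simp [nabs]
  | succ n ih =>
    show (nab delW GW _ (nabs delW GW κ n a)).natDegree ≤ n + 1
    generalize nabs delW GW κ n a = P at ih
    rw [nab, dext_apply]
    rw [Polynomial.natDegree_le_iff_coeff_eq_zero]
    intro m hm
    have hz : ∀ i, n < i → P.coeff i = 0 := fun i hi =>
      Polynomial.coeff_eq_zero_of_natDegree_lt (lt_of_le_of_lt ih hi)
    obtain ⟨m', rfl⟩ : ∃ m', m = m' + 2 := ⟨m - 2, by omega⟩
    rw [Polynomial.coeff_add, Polynomial.coeff_add, coeff_mapc, hz _ (by omega), Dv.map_zero,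
      sub_mul, Polynomial.coeff_sub, Polynomial.coeff_C_mul, Polynomial.coeff_derivative,
      hz _ (by omega), Polynomial.coeff_X_pow_mul, Polynomial.coeff_derivative, hz _ (by omega)]
    rw [mul_assoc, show ((-(κ : ℤ) + 2 * n : ℤ) : Polynomial ℚ⟦X⟧) =
      Polynomial.C ((-(κ : ℤ) + 2 * n : ℤ) : ℚ⟦X⟧) from (Polynomial.C_eq_intCast _).symm,
      Polynomial.coeff_C_mul, show m' + 2 = (m' + 1) + 1 from rfl, Polynomial.coeff_X_mul,
      hz _ (by omega)]
    simp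

theorem Lop_add (κ : ℕ) (a b : ℚ⟦X⟧) : Lop κ (a + b) = Lop κ a + Lop κ b := by
  rw [Lop_eq, Lop_eq, Lop_eq, nabs_add, Polynomial.coeff_add]

theorem Lop_C_mul (κ : ℕ) (c : ℚ) (a : ℚ⟦X⟧) : Lop κ (PowerSeries.C c * a) = PowerSeries.C c * Lop κ a := by
  rw [Lop_eq, Lop_eq, nabs_C_mul, Polynomial.coeff_C_mul]

private theorem OPBev_it_add (n : ℕ) (a b : ℚ⟦X⟧) :
    (delW.toFun)^[n] (a + b) = (delW.toFun)^[n] a + (delW.toFun)^[n] b := by
  induction n with
  | zero => rfl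
  | succ n ih =>
    rw [Function.iterate_succ_apply', Function.iterate_succ_apply', Function.iterate_succ_apply', ih]
    exact delW.add' _ _

private theorem OPBev_it_C_mul (n : ℕ) (c : ℚ) (a : ℚ⟦X⟧) :
    (delW.toFun)^[n] (PowerSeries.C c * a) = PowerSeries.C c * (delW.toFun)^[n] a := by
  induction n with
  | zero => rfl
  | succ n ih =>
    rw [Function.iterate_succ_apply', Function.iterate_succ_apply', ih]
    exact delW_C_mul _ _

theorem Lam_add (κ : ℕ) (a b : ℚ⟦X⟧) : Lam κ (a + b) = Lam κ a + Lam κ b := OPBev_it_add _ _ _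
theorem Lam_C_mul (κ : ℕ) (c : ℚ) (a : ℚ⟦X⟧) : Lam κ (PowerSeries.C c * a) = PowerSeries.C c * Lam κ a :=
  OPBev_it_C_mul _ _ _

end Pool.Agent.H74.OP
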