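import Pool.Agent.H74.OP.BDefs
import Pool.Agent.H85.OT.Hd

/-!
# Row OPBid (project OP, block B): the differential identities for `W`, `t`, `z`

(Only algebra from `OT/Fld.lean`, `OT/Hd.lean`; do not import `Bth`.)
* `D (dbl y) = 2 dbl (D y)` (coefficients: `coeff_Dq`, `coeff_expand`), so `delW (dbl y) = W⁻² · 2 dbl (D y) = 2 dbl (U⁻² D y) = 2 dbl (del ℚ y)`; `W⁻¹ = dbl U⁻¹`.
* `W = dbl U`, `2 W = U + V` (`fld_dblU`), `(dbl V)² = U V` (`fld_dblV`), `8 s = U - V`: `64 s² = (U + V)² - 4 U V = 4 W² - 4 (dbl V)²`, so `16 t² = 1 - (dbl V)² W⁻² = dbl (1 - x²) = dbl λ`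
  (`xx K = V U⁻¹`, `lam K = 1 - xx K ^ 2`).
* `del λ = λ (1 - λ)` (`Dq_lam`): `delW (16 t²) = 2 dbl (λ(1-λ)) = 2 · 16 t² (1 - 16 t²)`; also `delW (16 t²) = 32 t delW t`; cancel `32 t ≠ 0` (`t` has coefficient `1` at `q`: `fld_dU`, `fld_dV`:
  `coeff 1 (U - V) = 8`): `delW t = t (1 - 16 t²)`.
* `zW = D W · W⁻³ = 2 dbl (D U · U⁻³) = 2 dbl (zz)` (`zz = D U · U⁻¹ · U⁻²`).  `del zz = λ(1-λ)/4 - zz²` (`Dq_zz`: `4 D zz = U²(x²(1-x²) - 4 zz²)`, `x²(1-x²) = (1-λ)λ`), so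
  `delW zW = 4 dbl (λ(1-λ)/4 - zz²) = dbl λ (1 - dbl λ) - zW² = GW - zW²`.
* `delW W = zW W`: `W⁻² D W = D W W⁻³ W`.  `delW W⁻¹ = - zW W⁻¹` from `W W⁻¹ = 1`.
-/

open PowerSeries
open Pool.Agent.H85.OT
open Pool.Agent.H85.OU
open Pool.Agent.H46.OP

namespace Pool.Agent.H74.OP

private theorem OPBid_dbl (F : ℚ⟦X⟧) (n : ℕ) : PowerSeries.coeff n (dbl ℚ F) =
    if 2 ∣ n then PowerSeries.coeff (n / 2) F else 0 := by
  unfold dbl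
  exact PowerSeries.coeff_expand _ _ _

private theorem OPBid_Ddbl (F : ℚ⟦X⟧) : Dq ℚ (dbl ℚ F) = 2 * dbl ℚ (Dq ℚ F) := by
  have h2 : (2 : ℚ⟦X⟧) = PowerSeries.C (2 : ℚ) := (map_ofNat PowerSeries.C 2).symm
  ext n
  rw [h2, PowerSeries.coeff_C_mul, coeff_Dq, OPBid_dbl, OPBid_dbl]
  split_ifs with h
  · obtain ⟨m, rfl⟩ := h
    rw [coeff_Dq, Nat.mul_div_cancel_left m two_pos]
    push_cast
    ring
  · simp

private theorem OPBid_num (n : ℕ) [n.AtLeastTwo] (h : (OfNat.ofNat n : ℚ) ≠ 0) :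
    (OfNat.ofNat n : ℚ⟦X⟧) ≠ 0 := by
  intro h1
  apply h
  have h2 : (OfNat.ofNat n : ℚ⟦X⟧) = PowerSeries.C (OfNat.ofNat n : ℚ) := (map_ofNat PowerSeries.C n).symm
  rw [h2] at h1
  have h3 := congrArg PowerSeries.constantCoeff h1
  rw [PowerSeries.constantCoeff_C, map_zero] at h3
  exact h3

private theorem OPBid_cW : PowerSeries.constantCoeff Wq ≠ 0 := by
  have h : Wq * dbl ℚ (U ℚ)⁻¹ = 1 := by
    rw [Wq, ← map_mul, U_mul_inv, map_one]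
  intro h0
  have h1 : PowerSeries.constantCoeff (Wq * dbl ℚ (U ℚ)⁻¹) = 1 := by rw [h, map_one]
  rw [map_mul, h0, zero_mul] at h1
  exact zero_ne_one h1

private theorem OPBid_WI : Wq * Wq⁻¹ = 1 := PowerSeries.mul_inv_cancel _ OPBid_cW

private theorem OPBid_W0 : Wq ≠ 0 := by
  intro h
  apply OPBid_cW
  rw [h, map_zero]

private theorem OPBid_Winv : Wq⁻¹ = dbl ℚ (U ℚ)⁻¹ := by
  have h : Wq * dbl ℚ (U ℚ)⁻¹ = 1 := by
    rw [Wq, ← map_mul, U_mul_inv, map_one]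
  apply mul_left_cancel₀ OPBid_W0
  rw [h, OPBid_WI]

theorem delW_dbl (y : ℚ⟦X⟧) : delW (dbl ℚ y) = 2 * dbl ℚ (Pool.Agent.H85.OT.del ℚ y) := by
  have h : Pool.Agent.H85.OT.del ℚ y = (U ℚ)⁻¹ ^ 2 * Dq ℚ y := rfl
  rw [delW_apply, h, map_mul, map_pow, OPBid_Ddbl, OPBid_Winv]
  ring

private theorem OPBid_8 : 8 * Pool.Agent.H46.OP.sq = U ℚ - V ℚ := by
  have h8 : (8 : ℚ⟦X⟧) = PowerSeries.C (8 : ℚ) := (map_ofNat PowerSeries.C 8).symm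
  have h1 : PowerSeries.C (8 : ℚ) * PowerSeries.C (1 / 8 : ℚ) = (1 : ℚ⟦X⟧) := by
    rw [← map_mul]
    norm_num
  rw [h8, Pool.Agent.H46.OP.sq, ← mul_assoc, h1, one_mul]

private theorem OPBid_tW : tq * Wq = Pool.Agent.H46.OP.sq := by
  rw [tq, mul_assoc, mul_comm Wq⁻¹, OPBid_WI, mul_one]

theorem sixteen_tq_sq : 16 * tq ^ 2 = dbl ℚ (lam ℚ) := by
  have h2 : 2 * Wq = U ℚ + V ℚ := fld_dblU ℚ
  have h3 : dbl ℚ (V ℚ) ^ 2 = U ℚ * V ℚ := fld_dblV ℚ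
  have h4 : dbl ℚ (xx ℚ) * Wq = dbl ℚ (V ℚ) := by
    rw [Wq, ← map_mul, xx_mul_U]
  have h5 : dbl ℚ (lam ℚ) = 1 - dbl ℚ (xx ℚ) ^ 2 := by
    rw [lam, map_sub, map_one, map_pow]
  rw [h5]
  have h6 := OPBid_8
  have h7 := OPBid_tW
  have h9 : (4 : ℚ⟦X⟧) * Wq ^ 2 ≠ 0 := mul_ne_zero (OPBid_num 4 (by norm_num)) (pow_ne_zero 2 OPBid_W0)
  apply mul_left_cancel₀ h9
  have e1 : (8 * Pool.Agent.H46.OP.sq) ^ 2 = (U ℚ - V ℚ) ^ 2 := by rw [h6]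
  have e2 : (2 * Wq) ^ 2 = (U ℚ + V ℚ) ^ 2 := by rw [h2]
  have e3 : (dbl ℚ (xx ℚ) * Wq) ^ 2 = U ℚ * V ℚ := by rw [h4, h3]
  have e4 : (tq * Wq) ^ 2 = Pool.Agent.H46.OP.sq ^ 2 := by rw [h7]
  linear_combination e1 - e2 + 4 * e3 + 64 * e4

private theorem OPBid_t0 : tq ≠ 0 := by
  intro h
  have h1 : Pool.Agent.H46.OP.sq = 0 := by rw [← OPBid_tW, h, zero_mul]
  have h2 := OPBid_8
  rw [h1, mul_zero] at h2
  have h3 := congrArg (PowerSeries.coeff 1) h2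
  rw [map_zero, map_sub, fld_dU, fld_dV] at h3
  norm_num at h3

theorem delW_tq : delW tq = tq * (1 - 16 * tq ^ 2) := by
  have h1 : delW (16 * tq ^ 2) = 32 * tq * delW tq := by
    have h0 : delW (16 : ℚ⟦X⟧) = 0 := by
      have h16 : (16 : ℚ⟦X⟧) = PowerSeries.C (16 : ℚ) := (map_ofNat PowerSeries.C 16).symm
      rw [delW_apply, h16]
      have : Dq ℚ (PowerSeries.C (16 : ℚ)) = 0 := by
        ext n
        rw [coeff_Dq, PowerSeries.coeff_C]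
        split_ifs with h
        · rw [h]
          simp
        · simp
      rw [this, mul_zero]
    rw [pow_two, Dv.map_mul, Dv.map_mul, h0]
    ring
  have h2 : delW (16 * tq ^ 2) = 2 * dbl ℚ (lam ℚ * (1 - lam ℚ)) := by
    rw [sixteen_tq_sq, delW_dbl]
    have h : Pool.Agent.H85.OT.del ℚ (lam ℚ) = lam ℚ * (1 - lam ℚ) := by
      have h3 : Pool.Agent.H85.OT.del ℚ (lam ℚ) = (U ℚ)⁻¹ ^ 2 * Dq ℚ (lam ℚ) := rfl
      rw [h3, Dq_lam ℚ two_ne_zero]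
      have h4 := U_mul_inv ℚ
      linear_combination (lam ℚ * (1 - lam ℚ)) * (U ℚ * (U ℚ)⁻¹ + 1) * h4
    rw [h]
  rw [map_mul, map_sub, map_one, ← sixteen_tq_sq] at h2
  have h3 : (32 : ℚ⟦X⟧) * tq ≠ 0 := mul_ne_zero (OPBid_num 32 (by norm_num)) OPBid_t0
  apply mul_left_cancel₀ h3
  linear_combination h2 - h1

theorem zW_eq_dbl : zW = 2 * dbl ℚ (zz ℚ) := by
  rw [zW, OPBid_Winv, Wq, OPBid_Ddbl, zz, ee, map_mul, map_mul, map_pow]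
  ring

theorem delW_zW : delW zW = GW - zW ^ 2 := by
  have h0 : delW (2 : ℚ⟦X⟧) = 0 := by
    have h16 : (2 : ℚ⟦X⟧) = PowerSeries.C (2 : ℚ) := (map_ofNat PowerSeries.C 2).symm
    rw [delW_apply, h16]
    have : Dq ℚ (PowerSeries.C (2 : ℚ)) = 0 := by
      ext n
      rw [coeff_Dq, PowerSeries.coeff_C]
      split_ifs with h
      · rw [h]
        simp
      · simp
    rw [this, mul_zero]
  have h1 : delW zW = 2 * (2 * dbl ℚ (Pool.Agent.H85.OT.del ℚ (zz ℚ))) := by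
    rw [zW_eq_dbl, Dv.map_mul, h0, delW_dbl]
    ring
  have h4 := U_mul_inv ℚ
  have h2 : 4 * Pool.Agent.H85.OT.del ℚ (zz ℚ) = lam ℚ * (1 - lam ℚ) - 4 * zz ℚ ^ 2 := by
    have h3 : Pool.Agent.H85.OT.del ℚ (zz ℚ) = (U ℚ)⁻¹ ^ 2 * Dq ℚ (zz ℚ) := rfl
    have h5 := Dq_zz ℚ two_ne_zero
    rw [h3, lam]
    linear_combination (U ℚ)⁻¹ ^ 2 * h5 +
      (xx ℚ ^ 2 * (1 - xx ℚ ^ 2) - 4 * zz ℚ ^ 2) * (U ℚ * (U ℚ)⁻¹ + 1) * h4
  have h6 : 4 * dbl ℚ (Pool.Agent.H85.OT.del ℚ (zz ℚ)) =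
      dbl ℚ (lam ℚ) * (1 - dbl ℚ (lam ℚ)) - 4 * dbl ℚ (zz ℚ) ^ 2 := by
    have h7 := congrArg (dbl ℚ) h2
    rw [map_mul, map_sub, map_mul, map_sub, map_one, map_mul, map_pow] at h7
    have h8 : dbl ℚ (4 : ℚ⟦X⟧) = 4 := by
      have : (4 : ℚ⟦X⟧) = ((4 : ℕ) : ℚ⟦X⟧) := by norm_num
      rw [this, map_natCast]
    rw [h8] at h7
    exact h7
  rw [h1, GW, zW_eq_dbl, sixteen_tq_sq]
  linear_combination h6

theorem delW_Wq : delW Wq = zW * Wq := by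
  rw [delW_apply, zW]
  have h := OPBid_WI
  linear_combination -(Wq⁻¹ ^ 2 * Dq ℚ Wq) * h

theorem delW_Wq_inv : delW Wq⁻¹ = -(zW * Wq⁻¹) := by
  have h := OPBid_WI
  have h1 : delW (1 : ℚ⟦X⟧) = 0 := by
    rw [delW_apply, Derivation.map_one_eq_zero, mul_zero]
  have h2 : delW (Wq * Wq⁻¹) = 0 := by rw [h, h1]
  rw [Dv.map_mul, delW_Wq] at h2
  apply mul_left_cancel₀ OPBid_W0
  linear_combination h2


end Pool.Agent.H74.OP
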