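import Pool.Agent.H74.OP.BDefs

/-!
# Row OPBint (project OP, block B): calculus of `Int2`, `Cg`, `Odn`, `Evn`

All coefficientwise.
* `Int2`: `padicNorm 2` is nonarchimedean (`padicNorm.nonarchimedean`, `padicNorm.sub`, `padicNorm.sum_le'`) and multiplicative (`padicNorm.mul`); a coefficient of `a * b` is a finite sum
  of products (`PowerSeries.coeff_mul`).  Integers have `padicNorm 2 ≤ 1` (`padicNorm.of_int`).  `coeff n (Dq ℚ a) = n * coeff n a` (`coeff_Dq`).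
* `Cg`: witnesses: `a - b = 2^m w`, `a' - b' = 2^m w'`: `(a + a') - (b + b') = 2^m (w + w')`, `a a' - b b' = a (a' - b') + (a - b) b' = 2^m (a w' + w b')`.  `Dq` commutes with `C c *`.
  `Cg.mono`: `2^m = 2^n 2^(m-n)` and `2^(m-n)` is 2-integral.
* parity: coefficient `n` of `a * b` is a sum over `i + j = n`; if `n` is even, `i, j` have the same parity, etc.
-/

open PowerSeries
open Pool.Agent.H85.OT
open Pool.Agent.H85.OU
open Pool.Agent.H46.OP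

namespace Pool.Agent.H74.OP

private theorem OPBint_add {x y : ℚ} (hx : padicNorm 2 x ≤ 1) (hy : padicNorm 2 y ≤ 1) :
    padicNorm 2 (x + y) ≤ 1 := padicNorm.nonarchimedean.trans (max_le hx hy)

private theorem OPBint_mul {x y : ℚ} (hx : padicNorm 2 x ≤ 1) (hy : padicNorm 2 y ≤ 1) :
    padicNorm 2 (x * y) ≤ 1 := by
  rw [padicNorm.mul]
  exact mul_le_one₀ hx (padicNorm.nonneg _) hy

private theorem OPBint_sum {ι : Type*} (s : Finset ι) (g : ι → ℚ)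
    (h : ∀ i ∈ s, padicNorm 2 (g i) ≤ 1) : padicNorm 2 (∑ i ∈ s, g i) ≤ 1 :=
  padicNorm.sum_le' h zero_le_one

theorem int2_zero : Int2 0 := by
  intro n
  rw [map_zero, padicNorm.zero]
  exact zero_le_one

theorem int2_C {q : ℚ} (hq : padicNorm 2 q ≤ 1) : Int2 (PowerSeries.C q) := by
  intro n
  rw [PowerSeries.coeff_C]
  split_ifs
  · exact hq
  · rw [padicNorm.zero]
    exact zero_le_one

theorem int2_one : Int2 1 := by
  have h : (1 : ℚ⟦X⟧) = PowerSeries.C (1 : ℚ) := (map_one _).symm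
  rw [h]
  exact int2_C (by rw [padicNorm.one])

theorem int2_add {a b : ℚ⟦X⟧} (ha : Int2 a) (hb : Int2 b) : Int2 (a + b) := by
  intro n
  rw [map_add]
  exact OPBint_add (ha n) (hb n)

theorem int2_neg {a : ℚ⟦X⟧} (ha : Int2 a) : Int2 (-a) := by
  intro n
  rw [map_neg, padicNorm.neg]
  exact ha n

theorem int2_sub {a b : ℚ⟦X⟧} (ha : Int2 a) (hb : Int2 b) : Int2 (a - b) := by
  rw [sub_eq_add_neg]
  exact int2_add ha (int2_neg hb)

theorem int2_mul {a b : ℚ⟦X⟧} (ha : Int2 a) (hb : Int2 b) : Int2 (a * b) := by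
  intro n
  rw [PowerSeries.coeff_mul]
  exact OPBint_sum _ _ fun x _ => OPBint_mul (ha _) (hb _)

theorem int2_pow {a : ℚ⟦X⟧} (ha : Int2 a) (n : ℕ) : Int2 (a ^ n) := by
  induction n with
  | zero =>
    rw [pow_zero]
    exact int2_one
  | succ n ih =>
    rw [pow_succ]
    exact int2_mul ih ha

theorem int2_sum {ι : Type*} (s : Finset ι) (g : ι → ℚ⟦X⟧) (h : ∀ i ∈ s, Int2 (g i)) :
    Int2 (∑ i ∈ s, g i) := by
  intro n
  rw [map_sum]
  exact OPBint_sum _ _ fun i hi => h i hi n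

theorem int2_map (f : ℤ⟦X⟧) : Int2 (PowerSeries.map (Int.castRingHom ℚ) f) := by
  intro n
  rw [PowerSeries.coeff_map]
  exact padicNorm.of_int _

theorem int2_C_int (n : ℤ) : Int2 (PowerSeries.C (n : ℚ)) := int2_C (padicNorm.of_int n)

theorem int2_C_pow (m : ℕ) : Int2 (PowerSeries.C ((2 : ℚ) ^ m)) := by
  have h : ((2 : ℚ) ^ m) = (((2 : ℤ) ^ m : ℤ) : ℚ) := by push_cast; rfl
  rw [h]
  exact int2_C_int _

theorem int2_intCast (n : ℤ) : Int2 ((n : ℚ⟦X⟧)) := by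
  have h : (n : ℚ⟦X⟧) = PowerSeries.C (n : ℚ) := (map_intCast _ n).symm
  rw [h]
  exact int2_C_int n

theorem int2_natCast (n : ℕ) : Int2 ((n : ℚ⟦X⟧)) := by
  have h := int2_intCast (n : ℤ)
  rwa [Int.cast_natCast] at h

theorem int2_Dq {a : ℚ⟦X⟧} (ha : Int2 a) : Int2 (Dq ℚ a) := by
  intro n
  rw [coeff_Dq]
  exact OPBint_mul (padicNorm.of_nat n) (ha n)

theorem Cg.refl (m : ℕ) (a : ℚ⟦X⟧) : Cg m a a := ⟨0, int2_zero, by rw [mul_zero, sub_self]⟩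

theorem Cg.symm {m : ℕ} {a b : ℚ⟦X⟧} (h : Cg m a b) : Cg m b a := by
  obtain ⟨w, hw, h⟩ := h
  refine ⟨-w, int2_neg hw, ?_⟩
  rw [mul_neg, ← h, neg_sub]

theorem Cg.trans {m : ℕ} {a b c : ℚ⟦X⟧} (h : Cg m a b) (h' : Cg m b c) : Cg m a c := by
  obtain ⟨w, hw, h⟩ := h
  obtain ⟨w', hw', h'⟩ := h'
  refine ⟨w + w', int2_add hw hw', ?_⟩
  rw [mul_add, ← h, ← h', sub_add_sub_cancel]

theorem Cg.mono {m n : ℕ} (hmn : n ≤ m) {a b : ℚ⟦X⟧} (h : Cg m a b) : Cg n a b := by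
  obtain ⟨w, hw, h⟩ := h
  refine ⟨PowerSeries.C ((2 : ℚ) ^ (m - n)) * w, int2_mul (int2_C_pow _) hw, ?_⟩
  rw [h, ← mul_assoc, ← map_mul, ← pow_add, Nat.add_sub_cancel' hmn]

theorem Cg.add {m : ℕ} {a b a' b' : ℚ⟦X⟧} (h : Cg m a b) (h' : Cg m a' b') :
    Cg m (a + a') (b + b') := by
  obtain ⟨w, hw, h⟩ := h
  obtain ⟨w', hw', h'⟩ := h'
  refine ⟨w + w', int2_add hw hw', ?_⟩
  rw [mul_add, ← h, ← h']
  ring

theorem Cg.sub {m : ℕ} {a b a' b' : ℚ⟦X⟧} (h : Cg m a b) (h' : Cg m a' b') :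
    Cg m (a - a') (b - b') := by
  obtain ⟨w, hw, h⟩ := h
  obtain ⟨w', hw', h'⟩ := h'
  refine ⟨w - w', int2_sub hw hw', ?_⟩
  rw [mul_sub, ← h, ← h']
  ring

theorem Cg.mul {m : ℕ} {a b a' b' : ℚ⟦X⟧} (h : Cg m a b) (h' : Cg m a' b') (ha : Int2 a)
    (hb' : Int2 b') : Cg m (a * a') (b * b') := by
  obtain ⟨w, hw, h⟩ := h
  obtain ⟨w', hw', h'⟩ := h'
  refine ⟨a * w' + w * b', int2_add (int2_mul ha hw') (int2_mul hw hb'), ?_⟩
  have h1 : a * a' - b * b' = a * (a' - b') + (a - b) * b' := by ring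
  rw [h1, h, h']
  ring

theorem Cg.mul_left {m : ℕ} {a b c : ℚ⟦X⟧} (hc : Int2 c) (h : Cg m a b) :
    Cg m (c * a) (c * b) := by
  obtain ⟨w, hw, h⟩ := h
  refine ⟨c * w, int2_mul hc hw, ?_⟩
  rw [← mul_sub, h]
  ring

private theorem OPBint_DqC (c : ℚ) (w : ℚ⟦X⟧) :
    Pool.Agent.H85.OT.Dq ℚ (PowerSeries.C c * w) =
      PowerSeries.C c * Pool.Agent.H85.OT.Dq ℚ w := by
  ext n
  rw [coeff_Dq, PowerSeries.coeff_C_mul, PowerSeries.coeff_C_mul, coeff_Dq]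
  ring

theorem Cg.Dq {m : ℕ} {a b : ℚ⟦X⟧} (h : Cg m a b) :
    Cg m (Pool.Agent.H85.OT.Dq ℚ a) (Pool.Agent.H85.OT.Dq ℚ b) := by
  obtain ⟨w, hw, h⟩ := h
  refine ⟨Pool.Agent.H85.OT.Dq ℚ w, int2_Dq hw, ?_⟩
  rw [← map_sub, h, OPBint_DqC]

theorem Cg.int {m : ℕ} {a b : ℚ⟦X⟧} (h : Cg m a b) (hb : Int2 b) : Int2 a := by
  obtain ⟨w, hw, h⟩ := h
  have h1 : a = b + PowerSeries.C ((2 : ℚ) ^ m) * w := by
    rw [← h]
    ring
  rw [h1]
  exact int2_add hb (int2_mul (int2_C_pow m) hw)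

/-- division by `2^m` -/
theorem Cg.div {m : ℕ} {a b : ℚ⟦X⟧} (h : Cg m a b) :
    Int2 (PowerSeries.C (((2 : ℚ) ^ m)⁻¹) * (a - b)) := by
  obtain ⟨w, hw, h⟩ := h
  rw [h, ← mul_assoc, ← map_mul, inv_mul_cancel₀ (pow_ne_zero m two_ne_zero), map_one, one_mul]
  exact hw

theorem odd_zero : Odn 0 := fun n _ => map_zero _

theorem odd_add {a b : ℚ⟦X⟧} (ha : Odn a) (hb : Odn b) : Odn (a + b) := by
  intro n hn
  rw [map_add, ha n hn, hb n hn, add_zero]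

theorem odd_sub {a b : ℚ⟦X⟧} (ha : Odn a) (hb : Odn b) : Odn (a - b) := by
  intro n hn
  rw [map_sub, ha n hn, hb n hn, sub_zero]

theorem odd_neg {a : ℚ⟦X⟧} (ha : Odn a) : Odn (-a) := by
  intro n hn
  rw [map_neg, ha n hn, neg_zero]

theorem odd_C_mul (c : ℚ) {a : ℚ⟦X⟧} (ha : Odn a) : Odn (PowerSeries.C c * a) := by
  intro n hn
  rw [PowerSeries.coeff_C_mul, ha n hn, mul_zero]

theorem odd_sum {ι : Type*} (s : Finset ι) (g : ι → ℚ⟦X⟧) (h : ∀ i ∈ s, Odn (g i)) :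
    Odn (∑ i ∈ s, g i) := by
  intro n hn
  rw [map_sum]
  exact Finset.sum_eq_zero fun i hi => h i hi n hn

theorem odd_Dq {a : ℚ⟦X⟧} (ha : Odn a) : Odn (Dq ℚ a) := by
  intro n hn
  rw [coeff_Dq, ha n hn, mul_zero]

theorem even_mul_odd {a b : ℚ⟦X⟧} (ha : Evn a) (hb : Odn b) : Odn (a * b) := by
  intro n hn
  rw [PowerSeries.coeff_mul]
  refine Finset.sum_eq_zero fun x hx => ?_
  rw [Finset.HasAntidiagonal.mem_antidiagonal] at hx
  by_cases h : 2 ∣ x.1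
  · have h2 : 2 ∣ x.2 := by omega
    rw [hb _ h2, mul_zero]
  · rw [ha _ h, zero_mul]

theorem odd_mul_odd {a b : ℚ⟦X⟧} (ha : Odn a) (hb : Odn b) : Evn (a * b) := by
  intro n hn
  rw [PowerSeries.coeff_mul]
  refine Finset.sum_eq_zero fun x hx => ?_
  rw [Finset.HasAntidiagonal.mem_antidiagonal] at hx
  by_cases h : 2 ∣ x.1
  · rw [ha _ h, zero_mul]
  · have h2 : 2 ∣ x.2 := by omega
    rw [hb _ h2, mul_zero]

theorem even_mul {a b : ℚ⟦X⟧} (ha : Evn a) (hb : Evn b) : Evn (a * b) := by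
  intro n hn
  rw [PowerSeries.coeff_mul]
  refine Finset.sum_eq_zero fun x hx => ?_
  rw [Finset.HasAntidiagonal.mem_antidiagonal] at hx
  by_cases h : 2 ∣ x.1
  · have h2 : ¬ 2 ∣ x.2 := by omega
    rw [hb _ h2, mul_zero]
  · rw [ha _ h, zero_mul]

theorem even_C (c : ℚ) : Evn (PowerSeries.C c) := by
  intro n hn
  rw [PowerSeries.coeff_C, if_neg]
  rintro rfl
  exact hn (dvd_zero 2)

theorem even_pow {a : ℚ⟦X⟧} (ha : Evn a) (n : ℕ) : Evn (a ^ n) := by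
  induction n with
  | zero =>
    rw [pow_zero, ← map_one (PowerSeries.C (R := ℚ))]
    exact even_C 1
  | succ n ih =>
    rw [pow_succ]
    exact even_mul ih ha

theorem even_intCast (n : ℤ) : Evn ((n : ℚ⟦X⟧)) := by
  have h : (n : ℚ⟦X⟧) = PowerSeries.C (n : ℚ) := (map_intCast _ n).symm
  rw [h]
  exact even_C _

theorem even_natCast (n : ℕ) : Evn ((n : ℚ⟦X⟧)) := by
  have h := even_intCast (n : ℤ)
  rwa [Int.cast_natCast] at h

theorem even_add {a b : ℚ⟦X⟧} (ha : Evn a) (hb : Evn b) : Evn (a + b) := by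
  intro n hn
  rw [map_add, ha n hn, hb n hn, add_zero]

theorem even_sub {a b : ℚ⟦X⟧} (ha : Evn a) (hb : Evn b) : Evn (a - b) := by
  intro n hn
  rw [map_sub, ha n hn, hb n hn, sub_zero]

theorem even_dbl (a : ℚ⟦X⟧) : Evn (dbl ℚ a) := by
  intro n hn
  exact PowerSeries.coeff_expand_of_not_dvd 2 two_ne_zero a hn

end Pool.Agent.H74.OP
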