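import Pool.Agent.H74.OP.Bcf

/-!
# Row OPBne (project OP, block B): the Neumann series

* `Cg_Lam`: `Cg 2 (Lam κ a) (D^(κ+1) a)` for 2-integral `a`: induction with `Cg_delW` (`delW (delW^n a) ≡ D (delW^n a) ≡ D (D^n a)` by `Cg.Dq`).
* `Cg_Lop`: `Cg 2 (Lop κ a) (D^(κ+1) a)`: `W^(-κ) a ≡ a` (`Cg_Wq_inv`, powers), `D^(κ+1)` preserves `Cg`, `W^(-κ-2) ≡ 1`.
* `Cg_LL`: `Cg 2 (Lop κ (Lam κ a)) a` for `a` 2-integral and odd: `Lop (Lam a) ≡ D^(κ+1) (Lam a) ≡ D^(2κ+2) a`, and coefficient `n` of `D^(2κ+2) a - a` is `(n^(2κ+2) - 1) a_n`: zero for even `n` (`a_n = 0`), and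
  `n^(2κ+2) - 1` is divisible by `4` (even by `8`) for odd `n`.
* `QA_E`: `Eop κ a = (Lop (Lam a) - a)/4`: 2-integral (`Cg.div` with `m = 2`, `(2^2)⁻¹ = 1/4`), odd, in `A (n + 16 c (κ+1))` (`QA_Lam`, `QA_Lop`; `A` is a `ℚ`-space).
* `QA_ui`: `φ = phiW f (κ + 2) ∈ A c` (`pmem`), 2-integral and odd (`f` integral and odd, `W⁻¹` 2-integral and even), so `E^i φ ∈ QA (c + 16 c (κ+1) i)`, `ui ∈ QA (c + 16c(κ+1)i + 8c(κ+1))`.
* `telescope`: `Lop κ (∑_(j<i) 4^j ui_j) = φ - (-4)^i E^i φ`: `Lop (Lam a) = a + 4 E a`, induction on `i` (`Lop_add`, `Lop_C_mul`).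
* `y0_cg`: put `b = y0 - Y_i`, odd (`y0 = W^κ FK`, `FK` odd), `Lop b = (-4)^i E^i φ = 4^i w0`, `w0` 2-integral.  So `D^(κ+1) (W^(-κ) b) = W^(κ+2) 4^i w0`.  Coefficient `n` of `g = W^(-κ) b`: zero for even `n`; for odd `n`
  `n^(κ+1) g_n = 4^i (2-integral)`, `padicNorm 2 n = 1`, so `g_n/4^i` is 2-integral.  `b = W^κ g`.
-/

open PowerSeries
open Pool.Agent.H85.OT
open Pool.Agent.H85.OU
open Pool.Agent.H46.OP

namespace Pool.Agent.H74.OP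

variable {R c : ℕ} {A : ℕ → Submodule ℚ ℚ⟦X⟧}

private theorem OPBne_int_iter {a : ℚ⟦X⟧} (ha : Int2 a) (n : ℕ) : Int2 ((Dq ℚ)^[n] a) := by
  induction n with
  | zero => exact ha
  | succ n ih =>
    rw [Function.iterate_succ_apply']
    exact int2_Dq ih

private theorem OPBne_cg_iter {m : ℕ} {a b : ℚ⟦X⟧} (h : Cg m a b) (n : ℕ) :
    Cg m ((Dq ℚ)^[n] a) ((Dq ℚ)^[n] b) := by
  induction n with
  | zero => exact h
  | succ n ih =>
    rw [Function.iterate_succ_apply', Function.iterate_succ_apply']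
    exact Cg.Dq ih

private theorem OPBne_coeff_iter (n k : ℕ) (a : ℚ⟦X⟧) :
    PowerSeries.coeff n ((Dq ℚ)^[k] a) = (n : ℚ) ^ k * PowerSeries.coeff n a := by
  induction k with
  | zero => rw [Function.iterate_zero_apply, pow_zero, one_mul]
  | succ k ih =>
    rw [Function.iterate_succ_apply', coeff_Dq, ih]
    ring

private theorem OPBne_del_int {a : ℚ⟦X⟧} (ha : Int2 a) (n : ℕ) :
    Int2 ((delW.toFun)^[n] a) := by
  induction n with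
  | zero => exact ha
  | succ n ih =>
    rw [Function.iterate_succ_apply']
    exact int2_delW ih

private theorem OPBne_del_cg {a : ℚ⟦X⟧} (ha : Int2 a) (n : ℕ) :
    Cg 2 ((delW.toFun)^[n] a) ((Dq ℚ)^[n] a) := by
  induction n with
  | zero => exact Cg.refl 2 _
  | succ n ih =>
    rw [Function.iterate_succ_apply', Function.iterate_succ_apply']
    exact (Cg_delW (OPBne_del_int ha n)).trans (Cg.Dq ih)

private theorem OPBne_Wi (k : ℕ) : Cg 2 (Wq⁻¹ ^ k) 1 := by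
  induction k with
  | zero =>
    rw [pow_zero]
    exact Cg.refl 2 1
  | succ k ih =>
    have h := Cg.mul ih Cg_Wq_inv (int2_pow int2_Wq_inv k) int2_one
    rwa [← pow_succ, one_mul] at h

theorem Cg_Lam (κ : ℕ) {a : ℚ⟦X⟧} (ha : Int2 a) : Cg 2 (Lam κ a) ((Dq ℚ)^[κ + 1] a) :=
  OPBne_del_cg ha (κ + 1)

theorem Cg_Lop (κ : ℕ) {a : ℚ⟦X⟧} (ha : Int2 a) : Cg 2 (Lop κ a) ((Dq ℚ)^[κ + 1] a) := by
  have h1 := Cg.mul (OPBne_Wi κ) (Cg.refl 2 a) (int2_pow int2_Wq_inv κ) ha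
  rw [one_mul] at h1
  have h2 := OPBne_cg_iter h1 (κ + 1)
  have h3 := Cg.mul (OPBne_Wi (κ + 2)) h2 (int2_pow int2_Wq_inv (κ + 2)) (OPBne_int_iter ha (κ + 1))
  rw [one_mul] at h3
  exact h3

private theorem OPBne_odd_cg (κ : ℕ) {a : ℚ⟦X⟧} (ha : Int2 a) (ho : Odn a) :
    Cg 2 ((Dq ℚ)^[κ + 1] ((Dq ℚ)^[κ + 1] a)) a := by
  refine ⟨PowerSeries.C (((2 : ℚ) ^ 2)⁻¹) * ((Dq ℚ)^[κ + 1] ((Dq ℚ)^[κ + 1] a) - a), ?_, ?_⟩
  · intro n
    rw [PowerSeries.coeff_C_mul, map_sub, OPBne_coeff_iter, OPBne_coeff_iter]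
    by_cases h : 2 ∣ n
    · rw [ho n h, mul_zero, mul_zero, sub_zero, mul_zero, padicNorm.zero]
      exact zero_le_one
    · have h1 : ∃ m : ℤ, ((n : ℤ) ^ (κ + 1)) * ((n : ℤ) ^ (κ + 1)) - 1 = 4 * m := by
        have h2 : ¬ (2 : ℤ) ∣ (n : ℤ) ^ (κ + 1) := by
          intro h3
          have h4 := Int.prime_two.dvd_of_dvd_pow h3
          omega
        obtain ⟨r, hr⟩ : ∃ r : ℤ, (n : ℤ) ^ (κ + 1) = 2 * r + 1 := ⟨(n : ℤ) ^ (κ + 1) / 2, by omega⟩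
        refine ⟨r * r + r, ?_⟩
        rw [hr]
        ring
      obtain ⟨m, hm⟩ := h1
      have h5 : ((n : ℚ) ^ (κ + 1)) * ((n : ℚ) ^ (κ + 1)) - 1 = 4 * (m : ℚ) := by
        exact_mod_cast hm
      have h6 : ((2 : ℚ) ^ 2)⁻¹ * ((n : ℚ) ^ (κ + 1) * ((n : ℚ) ^ (κ + 1) * PowerSeries.coeff n a) -
          PowerSeries.coeff n a) = (m : ℚ) * PowerSeries.coeff n a := by
        linear_combination ((2 : ℚ) ^ 2)⁻¹ * PowerSeries.coeff n a * h5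
      rw [h6, padicNorm.mul]
      exact mul_le_one₀ (padicNorm.of_int m) (padicNorm.nonneg _) (ha n)
  · rw [← mul_assoc, ← map_mul, mul_inv_cancel₀ (pow_ne_zero 2 two_ne_zero), map_one, one_mul]

theorem Cg_LL (κ : ℕ) {a : ℚ⟦X⟧} (ha : Int2 a) (ho : Odn a) : Cg 2 (Lop κ (Lam κ a)) a :=
  ((Cg_Lop κ (OPBne_del_int ha (κ + 1))).trans (OPBne_cg_iter (Cg_Lam κ ha) (κ + 1))).trans
    (OPBne_odd_cg κ ha ho)

theorem QA_E {φ : ℚ⟦X⟧} (hA : Lev φ R c A) (κ : ℕ) {n : ℕ} {y : ℚ⟦X⟧} (hy : QA A n y) :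
    QA A (n + 16 * c * (κ + 1)) (Eop κ y) := by
  have h1 : QA A (n + 16 * c * (κ + 1)) (Lop κ (Lam κ y)) := by
    have h := QA_Lop hA κ (QA_Lam hA κ hy)
    have e : n + 8 * c * (κ + 1) + 8 * c * (κ + 1) = n + 16 * c * (κ + 1) := by ring
    rwa [e] at h
  have h2 : QA A (n + 16 * c * (κ + 1)) y := QA_mono hA (Nat.le_add_right _ _) hy
  unfold Eop
  refine ⟨?_, ?_, odd_C_mul _ (odd_sub h1.2.2 h2.2.2)⟩
  · rw [← PowerSeries.smul_eq_C_mul]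
    exact (A _).smul_mem _ ((A _).sub_mem h1.1 h2.1)
  · have h3 := Cg.div (Cg_LL κ hy.2.1 hy.2.2)
    have e : ((2 : ℚ) ^ 2)⁻¹ = 1 / 4 := by norm_num
    rwa [e] at h3

private theorem OPBne_phi (f : ℤ⟦X⟧) (κ : ℕ) (hodd : ∀ n, 2 ∣ n → PowerSeries.coeff n f = 0)
    (hA : Lev (phiW f (κ + 2)) R c A) : QA A c (phiW f (κ + 2)) := by
  refine ⟨hA.pmem, ?_, ?_⟩
  · unfold phiW
    exact int2_mul (int2_map f) (int2_pow int2_Wq_inv _)
  · unfold phiW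
    rw [mul_comm]
    refine even_mul_odd (even_pow even_Wq_inv _) ?_
    intro n hn
    rw [PowerSeries.coeff_map, hodd n hn, map_zero]

private theorem OPBne_Ei (f : ℤ⟦X⟧) (κ : ℕ) (hodd : ∀ n, 2 ∣ n → PowerSeries.coeff n f = 0)
    (hA : Lev (phiW f (κ + 2)) R c A) (i : ℕ) :
    QA A (16 * c * (κ + 1) * i + c) ((Eop κ)^[i] (phiW f (κ + 2))) := by
  induction i with
  | zero =>
    have e : 16 * c * (κ + 1) * 0 + c = c := by ring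
    rw [e]
    exact OPBne_phi f κ hodd hA
  | succ i ih =>
    rw [Function.iterate_succ_apply']
    have e : 16 * c * (κ + 1) * (i + 1) + c = 16 * c * (κ + 1) * i + c + 16 * c * (κ + 1) := by ring
    rw [e]
    exact QA_E hA κ ih

private theorem OPBne_m1 (i : ℕ) : padicNorm 2 ((-1 : ℚ) ^ i) ≤ 1 := by
  have e : ((-1 : ℚ) ^ i) = (((-1 : ℤ) ^ i : ℤ) : ℚ) := by
    push_cast
    rfl
  rw [e]
  exact padicNorm.of_int _

theorem QA_ui (f : ℤ⟦X⟧) (κ : ℕ) (hodd : ∀ n, 2 ∣ n → PowerSeries.coeff n f = 0)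
    (hA : Lev (phiW f (κ + 2)) R c A) (i : ℕ) :
    QA A (16 * c * (κ + 1) * i + 8 * c * (κ + 1) + c) (ui κ (phiW f (κ + 2)) i) := by
  have h := QA_Lam hA κ (OPBne_Ei f κ hodd hA i)
  have e : 16 * c * (κ + 1) * i + 8 * c * (κ + 1) + c =
      16 * c * (κ + 1) * i + c + 8 * c * (κ + 1) := by ring
  rw [e]
  exact QA_C_mul (OPBne_m1 i) h

theorem telescope (κ : ℕ) (φ : ℚ⟦X⟧) (i : ℕ) :
    Lop κ (∑ j ∈ Finset.range i, PowerSeries.C ((4 : ℚ) ^ j) * ui κ φ j) =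
      φ - PowerSeries.C ((-4 : ℚ) ^ i) * (Eop κ)^[i] φ := by
  induction i with
  | zero =>
    rw [Finset.sum_range_zero, pow_zero, map_one, Function.iterate_zero_apply, one_mul, sub_self]
    have h := Lop_C_mul κ 0 0
    rw [map_zero, zero_mul, zero_mul] at h
    exact h
  | succ i ih =>
    rw [Finset.sum_range_succ, Lop_add, ih, Lop_C_mul, ui, Lop_C_mul, Function.iterate_succ_apply']
    generalize (Eop κ)^[i] φ = a
    have h4 : PowerSeries.C (4 : ℚ) * PowerSeries.C (1 / 4 : ℚ) = (1 : ℚ⟦X⟧) := by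
      rw [← map_mul]
      norm_num
    have h1 : Lop κ (Lam κ a) = a + PowerSeries.C (4 : ℚ) * Eop κ a := by
      unfold Eop
      linear_combination -(Lop κ (Lam κ a) - a) * h4
    have h2 : PowerSeries.C ((-4 : ℚ) ^ i) =
        PowerSeries.C ((4 : ℚ) ^ i) * PowerSeries.C ((-1 : ℚ) ^ i) := by
      rw [← map_mul, ← mul_pow]
      norm_num
    have h3 : PowerSeries.C ((-4 : ℚ) ^ (i + 1)) =
        -(PowerSeries.C ((-4 : ℚ) ^ i) * PowerSeries.C (4 : ℚ)) := by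
      rw [← map_mul, ← map_neg, pow_succ]
      congr 1
      ring
    rw [h1, h3, h2]
    ring

private theorem OPBne_WW (n : ℕ) : Wq ^ n * Wq⁻¹ ^ n = 1 := by
  rw [← mul_pow, Wq_mul_inv, one_pow]

private theorem OPBne_solve (κ i : ℕ) {b ε : ℚ⟦X⟧} (hbo : Odn b) (hε : Int2 ε)
    (hL : Lop κ b = PowerSeries.C ((-4 : ℚ) ^ i) * ε) :
    ∃ w, Int2 w ∧ b = PowerSeries.C ((2 : ℚ) ^ (2 * i)) * w := by
  have h44 : PowerSeries.C ((-4 : ℚ) ^ i) =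
      PowerSeries.C ((4 : ℚ) ^ i) * PowerSeries.C ((-1 : ℚ) ^ i) := by
    rw [← map_mul, ← mul_pow]
    norm_num
  have hg : (Dq ℚ)^[κ + 1] (Wq⁻¹ ^ κ * b) =
      PowerSeries.C ((4 : ℚ) ^ i) * (Wq ^ (κ + 2) * (PowerSeries.C ((-1 : ℚ) ^ i) * ε)) := by
    have h1 : Wq ^ (κ + 2) * Lop κ b = (Dq ℚ)^[κ + 1] (Wq⁻¹ ^ κ * b) := by
      rw [Lop, ← mul_assoc, OPBne_WW, one_mul]
    rw [← h1, hL, h44]
    ring
  have hw1 : Int2 (Wq ^ (κ + 2) * (PowerSeries.C ((-1 : ℚ) ^ i) * ε)) :=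
    int2_mul (int2_pow int2_Wq _) (int2_mul (int2_C (OPBne_m1 i)) hε)
  generalize Wq ^ (κ + 2) * (PowerSeries.C ((-1 : ℚ) ^ i) * ε) = w1 at hg hw1
  have hgo : Odn (Wq⁻¹ ^ κ * b) := even_mul_odd (even_pow even_Wq_inv κ) hbo
  have h4 : (4 : ℚ) ^ i ≠ 0 := pow_ne_zero i (by norm_num)
  have hgi : Int2 (PowerSeries.C (((4 : ℚ) ^ i)⁻¹) * (Wq⁻¹ ^ κ * b)) := by
    intro n
    rw [PowerSeries.coeff_C_mul]
    by_cases h : 2 ∣ n
    · rw [hgo n h, mul_zero, padicNorm.zero]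
      exact zero_le_one
    · have h1 := congrArg (PowerSeries.coeff n) hg
      rw [OPBne_coeff_iter, PowerSeries.coeff_C_mul] at h1
      have h2 : padicNorm 2 ((n : ℚ) ^ (κ + 1)) = 1 := by
        have h3 : (n : ℚ) ^ (κ + 1) = ((n ^ (κ + 1) : ℕ) : ℚ) := by
          push_cast
          rfl
        rw [h3, padicNorm.nat_eq_one_iff]
        intro h5
        exact h (Nat.prime_two.dvd_of_dvd_pow h5)
      have h6 : (n : ℚ) ^ (κ + 1) * (((4 : ℚ) ^ i)⁻¹ * PowerSeries.coeff n (Wq⁻¹ ^ κ * b)) =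
          PowerSeries.coeff n w1 := by
        have h7 : ((4 : ℚ) ^ i)⁻¹ * (4 : ℚ) ^ i = 1 := inv_mul_cancel₀ h4
        linear_combination ((4 : ℚ) ^ i)⁻¹ * h1 + PowerSeries.coeff n w1 * h7
      have h8 := hw1 n
      rw [← h6, padicNorm.mul, h2, one_mul] at h8
      exact h8
  refine ⟨Wq ^ κ * (PowerSeries.C (((4 : ℚ) ^ i)⁻¹) * (Wq⁻¹ ^ κ * b)),
    int2_mul (int2_pow int2_Wq κ) hgi, ?_⟩
  have h9 : (2 : ℚ) ^ (2 * i) = 4 ^ i := by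
    rw [pow_mul]
    norm_num
  have h10 : PowerSeries.C ((4 : ℚ) ^ i) * PowerSeries.C (((4 : ℚ) ^ i)⁻¹) = (1 : ℚ⟦X⟧) := by
    rw [← map_mul, mul_inv_cancel₀ h4, map_one]
  rw [h9]
  linear_combination -(b * Wq ^ κ * Wq⁻¹ ^ κ) * h10 - b * OPBne_WW κ

theorem y0_cg (f : ℤ⟦X⟧) (κ : ℕ) (hodd : ∀ n, 2 ∣ n → PowerSeries.coeff n f = 0)
    (hA : Lev (phiW f (κ + 2)) R c A) (i : ℕ) :
    Cg (2 * i) (y0 f κ) (∑ j ∈ Finset.range i, PowerSeries.C ((4 : ℚ) ^ j) * ui κ (phiW f (κ + 2)) j) := by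
  have hYo : Odn (∑ j ∈ Finset.range i, PowerSeries.C ((4 : ℚ) ^ j) * ui κ (phiW f (κ + 2)) j) :=
    odd_sum _ _ fun j _ => odd_C_mul _ (QA_ui f κ hodd hA j).2.2
  have hT := telescope κ (phiW f (κ + 2)) i
  generalize (∑ j ∈ Finset.range i, PowerSeries.C ((4 : ℚ) ^ j) * ui κ (phiW f (κ + 2)) j) = Y
    at hYo hT ⊢
  have hE := OPBne_Ei f κ hodd hA i
  generalize (Eop κ)^[i] (phiW f (κ + 2)) = ε at hT hE
  have hyo : Odn (y0 f κ) := by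
    unfold y0
    refine even_mul_odd (even_pow even_Wq κ) ?_
    intro n hn
    rw [FK, PowerSeries.coeff_mk, hodd n hn, Int.cast_zero, zero_div]
  have hbo : Odn (y0 f κ - Y) := odd_sub hyo hYo
  have hLb : Lop κ (y0 f κ - Y) = PowerSeries.C ((-4 : ℚ) ^ i) * ε := by
    have h1 := Lop_add κ (y0 f κ - Y) Y
    rw [sub_add_cancel, Lop_y0 f κ (hodd 0 (dvd_zero 2)), hT] at h1
    linear_combination -h1
  obtain ⟨w, hw, he⟩ := OPBne_solve κ i hbo hE.2.1 hLb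
  exact ⟨w, hw, he⟩

end Pool.Agent.H74.OP
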