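import Pool.Agent.H74.OP.Bne
import Pool.Agent.H74.OP.Bap

/-!
# Row OPBt1 (project OP, block B): `T1` is approximated

`T1 = (nabs κ κ y0)(z)` (`T1_eq`), `coeff 0 f = 0` by `hodd`.  Put `v_i = (nabs delW GW κ κ u_i)(z)`, `u_i = ui κ φ i`: 2-integral (`int2_nabs`, `int2_zW`, a polynomial with 2-integral coefficients
evaluated at `z`: `Polynomial.eval_eq_sum_range`), and `ZA (16c(κ+1) i + 8c(κ+1) + c + 8 c κ) κ` (`QA_nabs`, `QA_ui`, `nabs_natDegree`).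
Congruence: `y0 - ∑_(j<i) 4^j u_j = 4^i w` (`y0_cg`), so by `nabs_add`, `nabs_C_mul` `T1 - ∑ 4^j v_j = 4^i (nabs κ κ w)(z)` and `(nabs κ κ w)(z)` is 2-integral (`2^(2i) = 4^i`).
-/

open PowerSeries
open Pool.Agent.H85.OT
open Pool.Agent.H85.OU
open Pool.Agent.H46.OP

namespace Pool.Agent.H74.OP

variable {R c : ℕ} {A : ℕ → Submodule ℚ ℚ⟦X⟧}

private theorem OPBt1_zero (κ n : ℕ) : nabs delW GW κ n (0 : ℚ⟦X⟧) = 0 := by
  have h := nabs_C_mul κ n 0 0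
  simpa using h

private theorem OPBt1_sum (κ : ℕ) (u : ℕ → ℚ⟦X⟧) (i : ℕ) :
    (nabs delW GW κ κ (∑ j ∈ Finset.range i, PowerSeries.C ((4 : ℚ) ^ j) * u j)).eval zW =
      ∑ j ∈ Finset.range i, PowerSeries.C ((4 : ℚ) ^ j) * (nabs delW GW κ κ (u j)).eval zW := by
  induction i with
  | zero => simp [OPBt1_zero]
  | succ i ih =>
    rw [Finset.sum_range_succ, Finset.sum_range_succ, nabs_add, Polynomial.eval_add, ih,
      nabs_C_mul, Polynomial.eval_mul, Polynomial.eval_C]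

private theorem OPBt1_int (κ : ℕ) {u : ℚ⟦X⟧} (hu : Int2 u) :
    Int2 ((nabs delW GW κ κ u).eval zW) := by
  rw [Polynomial.eval_eq_sum_range]
  exact int2_sum _ _ fun k _ => int2_mul (int2_nabs κ κ hu k) (int2_pow int2_zW k)

theorem App_T1 (f : ℤ⟦X⟧) (κ : ℕ) (hodd : ∀ n, 2 ∣ n → PowerSeries.coeff n f = 0)
    (hA : Lev (phiW f (κ + 2)) R c A) :
    App A (16 * c * (κ + 1)) (16 * c * (κ + 1) + c) κ (T1 f κ) := by
  refine ⟨fun i => (nabs delW GW κ κ (ui κ (phiW f (κ + 2)) i)).eval zW, fun i => ⟨?_, ?_⟩,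
    fun i => ?_⟩
  · exact OPBt1_int κ (QA_ui f κ hodd hA i).2.1
  · refine ⟨nabs delW GW κ κ (ui κ (phiW f (κ + 2)) i), nabs_natDegree κ κ _, fun k => ?_, rfl⟩
    refine hA.mono ?_ (QA_nabs hA κ κ (QA_ui f κ hodd hA i) k).1
    have : 16 * c * (κ + 1) = 8 * c * (κ + 1) + 8 * c * κ + 8 * c := by ring
    omega
  · obtain ⟨w, hw, he⟩ := y0_cg f κ hodd hA i
    have h0 : y0 f κ = (∑ j ∈ Finset.range i, PowerSeries.C ((4 : ℚ) ^ j) *
        ui κ (phiW f (κ + 2)) j) + PowerSeries.C ((2 : ℚ) ^ (2 * i)) * w := by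
      rw [← he]; ring
    refine ⟨(nabs delW GW κ κ w).eval zW, OPBt1_int κ hw, ?_⟩
    have h1 : T1 f κ = (∑ j ∈ Finset.range i, PowerSeries.C ((4 : ℚ) ^ j) *
        (nabs delW GW κ κ (ui κ (phiW f (κ + 2)) j)).eval zW) +
        PowerSeries.C ((2 : ℚ) ^ (2 * i)) * (nabs delW GW κ κ w).eval zW := by
      rw [T1_eq f κ (hodd 0 (dvd_zero 2)), h0, nabs_add, Polynomial.eval_add, OPBt1_sum,
        nabs_C_mul, Polynomial.eval_mul, Polynomial.eval_C]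
    rw [h1]
    ring

end Pool.Agent.H74.OP
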